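import Pool.Agent.R862.WS.Defs

/-! WS-CONF (helper886). -/

set_option autoImplicit false

universe u

namespace WS862

namespace CONFaux

variable {K V : Type u} [Field K] [AddCommGroup V] [Module K V]

/-- a rank one endomorphism with square zero is not a scalar -/
theorem not_scalar {φ : V →ₗ[K] K} {w : V} (hφ : φ ≠ 0) (hw : w ≠ 0) (h : φ w = 0)
    {c : K} (hc : ∀ x, φ.smulRight w x = c • x) : False := by
  have h1 := hc w
  rw [LinearMap.smulRight_apply, h, zero_smul] at h1
  have h2 : c = 0 := by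
    rcases smul_eq_zero.1 h1.symm with h3 | h3
    · exact h3
    · exact absurd h3 hw
  apply hφ
  ext y
  have h3 := hc y
  rw [LinearMap.smulRight_apply, h2, zero_smul] at h3
  rcases smul_eq_zero.1 h3 with h4 | h4
  · simpa using h4
  · exact absurd h4 hw

/-- a proper non-zero subspace has a non-zero vector and is killed by a non-zero functional -/
theorem exists_pair (P : Submodule K V) (h0 : P ≠ ⊥) (h1 : P ≠ ⊤) :
    ∃ (w : V) (φ : V →ₗ[K] K), w ∈ P ∧ w ≠ 0 ∧ φ ≠ 0 ∧ ∀ x ∈ P, φ x = 0 := by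
  obtain ⟨w, hw, hw0⟩ := P.exists_mem_ne_zero_of_ne_bot h0
  obtain ⟨φ, hφ, hP⟩ := Submodule.exists_le_ker_of_lt_top P (lt_top_iff_ne_top.2 h1)
  exact ⟨w, φ, hw, hw0, hφ, fun x hx => hP hx⟩

end CONFaux

open CONFaux in
theorem t_CONF : S_CONF.{u} := by
  intro K _ V0 V1 V2 V3 V4 _ _ _ _ _ _ _ _ _ _ R hS
  obtain ⟨-, hS⟩ := hS
  constructor
  · by_contra hcon
    rw [not_or] at hcon
    obtain ⟨hin, hout⟩ := hcon
    set P : Submodule K V2 := LinearMap.range R.a0 ⊔ LinearMap.range R.a2 with hP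
    have hle4 : P ≤ LinearMap.ker R.a4 := by
      refine sup_le ?_ ?_
      · rintro _ ⟨x, rfl⟩; exact R.r04 x
      · rintro _ ⟨x, rfl⟩; exact R.r24 x
    have hle5 : P ≤ LinearMap.ker R.a5 := by
      refine sup_le ?_ ?_
      · rintro _ ⟨x, rfl⟩; exact R.r05 x
      · rintro _ ⟨x, rfl⟩; exact R.r25 x
    have hbot : P ≠ ⊥ := by
      intro h
      apply hin
      rw [hP, sup_eq_bot_iff, LinearMap.range_eq_bot, LinearMap.range_eq_bot] at h
      exact h
    have htop : P ≠ ⊤ := by
      intro h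
      apply hout
      rw [h, top_le_iff, LinearMap.ker_eq_top] at hle4 hle5
      exact ⟨hle4, hle5⟩
    obtain ⟨w, φ, hwP, hw0, hφ, hφP⟩ := exists_pair P hbot htop
    have hm0 : ∀ x, φ (R.a0 x) = 0 := fun x =>
      hφP _ (Submodule.mem_sup_left (LinearMap.mem_range_self _ x))
    have hm2 : ∀ x, φ (R.a2 x) = 0 := fun x =>
      hφP _ (Submodule.mem_sup_right (LinearMap.mem_range_self _ x))
    have hw4 : R.a4 w = 0 := hle4 hwP
    have hw5 : R.a5 w = 0 := hle5 hwP
    obtain ⟨c, -, -, hc, -, -⟩ := hS 0 0 (φ.smulRight w) 0 0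
      (by intro x; simp [hm0]) (by intro x; simp) (by intro x; simp [hm2])
      (by intro x; simp) (by intro x; simp [hw4]) (by intro x; simp [hw5])
      (by intro x; simp)
    exact not_scalar hφ hw0 (hφP w hwP) hc
  · by_contra hcon
    rw [not_or] at hcon
    obtain ⟨hin, hout⟩ := hcon
    set P : Submodule K V3 := LinearMap.range R.a3 ⊔ LinearMap.range R.a4 with hP
    have hle6 : P ≤ LinearMap.ker R.a6 := by
      refine sup_le ?_ ?_
      · rintro _ ⟨x, rfl⟩; exact R.r36 x
      · rintro _ ⟨x, rfl⟩; exact R.r46 x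
    have hbot : P ≠ ⊥ := by
      intro h
      apply hin
      rw [hP, sup_eq_bot_iff, LinearMap.range_eq_bot, LinearMap.range_eq_bot] at h
      exact h
    have htop : P ≠ ⊤ := by
      intro h
      apply hout
      rw [h, top_le_iff, LinearMap.ker_eq_top] at hle6
      exact hle6
    obtain ⟨w, φ, hwP, hw0, hφ, hφP⟩ := exists_pair P hbot htop
    have hm3 : ∀ x, φ (R.a3 x) = 0 := fun x =>
      hφP _ (Submodule.mem_sup_left (LinearMap.mem_range_self _ x))
    have hm4 : ∀ x, φ (R.a4 x) = 0 := fun x =>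
      hφP _ (Submodule.mem_sup_right (LinearMap.mem_range_self _ x))
    have hw6 : R.a6 w = 0 := hle6 hwP
    obtain ⟨c, -, -, -, hc, -⟩ := hS 0 0 0 (φ.smulRight w) 0
      (by intro x; simp) (by intro x; simp) (by intro x; simp)
      (by intro x; simp [hm3]) (by intro x; simp [hm4]) (by intro x; simp)
      (by intro x; simp [hw6])
    exact not_scalar hφ hw0 (hφP w hwP) hc

end WS862
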