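import Pool.Agent.R862.WS.Defs

/-!
# Piece D4: the Schur representations of the three subspace quiver have 0-1-bases
-/

set_option autoImplicit false

universe u

namespace WS862

namespace D4

/-- `u ∈ A` or `φ` vanishes on `A` -/
def Ok {K C : Type u} [Field K] [AddCommGroup C] [Module K C] (φ : C →ₗ[K] K) (u : C)
    (A : Submodule K C) : Prop := u ∈ A ∨ ∀ x ∈ A, φ x = 0

section sub
variable {K C : Type u} [Field K] [AddCommGroup C] [Module K C]

/-- the hypothesis on three subspaces -/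
def HP (A B D : Submodule K C) : Prop :=
  ∀ (φ : C →ₗ[K] K) (u : C), Ok φ u A → Ok φ u B → Ok φ u D → φ = 0 ∨ u = 0

lemma HP.rot {A B D : Submodule K C} (h : HP A B D) : HP B D A :=
  fun φ u h1 h2 h3 => h φ u h3 h1 h2

lemma HP.swap {A B D : Submodule K C} (h : HP A B D) : HP B A D :=
  fun φ u h1 h2 h3 => h φ u h2 h1 h3

lemma HP.inf {A B D : Submodule K C} (h : HP A B D) : A ⊓ B = ⊥ := by
  rw [eq_bot_iff]
  intro u hu
  rw [Submodule.mem_inf] at hu
  rw [Submodule.mem_bot]
  by_contra hne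
  obtain ⟨f, hf⟩ : ∃ f : Module.Dual K C, f u ≠ 0 := by
    by_contra hcon
    push Not at hcon
    exact hne ((Module.forall_dual_apply_eq_zero_iff K u).1 hcon)
  have hD : D = ⊤ := by
    by_contra hD
    obtain ⟨g, hg, hg2⟩ := Submodule.exists_le_ker_of_lt_top D (lt_top_iff_ne_top.2 hD)
    rcases h g u (Or.inl hu.1) (Or.inl hu.2) (Or.inr fun x hx => hg2 hx) with h0 | h0
    · exact hg h0
    · exact hne h0
  rcases h f u (Or.inl hu.1) (Or.inl hu.2) (Or.inl (by rw [hD]; trivial)) with h0 | h0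
  · exact hf (by rw [h0]; rfl)
  · exact hne h0

lemma HP.sup {A B D : Submodule K C} (h : HP A B D) (hA : A ≠ ⊥) : B ⊔ D = ⊤ := by
  obtain ⟨u, hu, hne⟩ := (Submodule.ne_bot_iff A).1 hA
  by_contra hD
  obtain ⟨g, hg, hg2⟩ := Submodule.exists_le_ker_of_lt_top (B ⊔ D) (lt_top_iff_ne_top.2 hD)
  rcases h g u (Or.inl hu) (Or.inr fun x hx => hg2 (Submodule.mem_sup_left hx))
    (Or.inr fun x hx => hg2 (Submodule.mem_sup_right hx)) with h0 | h0
  · exact hg h0
  · exact hne h0

lemma HP.ne_bot [Nontrivial C] {A B D : Submodule K C} (h : HP A B D) : A ≠ ⊥ := by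
  intro hA
  have hB : B = ⊥ := by
    by_contra hB
    have h1 : D ⊔ A = ⊤ := h.rot.sup hB
    rw [hA, sup_bot_eq] at h1
    have h2 : B ⊓ D = ⊥ := h.rot.inf
    rw [h1, inf_top_eq] at h2
    exact hB h2
  have hD : D = ⊥ := by
    by_contra hD
    have h1 : A ⊔ B = ⊤ := h.rot.rot.sup hD
    rw [hA, hB, sup_bot_eq] at h1
    exact bot_ne_top h1
  obtain ⟨u, hu⟩ := exists_ne (0 : C)
  obtain ⟨f, hf⟩ : ∃ f : Module.Dual K C, f u ≠ 0 := by
    by_contra hcon
    push Not at hcon
    exact hu ((Module.forall_dual_apply_eq_zero_iff K u).1 hcon)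
  have hz : ∀ S : Submodule K C, S = ⊥ → ∀ x ∈ S, f x = 0 := by
    intro S hS x hx
    rw [hS, Submodule.mem_bot] at hx
    rw [hx, map_zero]
  rcases h f u (Or.inr (hz A hA)) (Or.inr (hz B hB)) (Or.inr (hz D hD)) with h0 | h0
  · exact hf (by rw [h0]; rfl)
  · exact hu h0

end sub

section rep
variable {K X Y Z C : Type u} [Field K]
  [AddCommGroup X] [Module K X] [AddCommGroup Y] [Module K Y] [AddCommGroup Z] [Module K Z]
  [AddCommGroup C] [Module K C]
  (a : X →ₗ[K] C) (b : Y →ₗ[K] C) (c : Z →ₗ[K] C)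

/-- all endomorphisms are scalars -/
def HS : Prop := ∀ (tX : X →ₗ[K] X) (tY : Y →ₗ[K] Y) (tZ : Z →ₗ[K] Z) (tC : C →ₗ[K] C),
    (∀ x, tC (a x) = a (tX x)) → (∀ x, tC (b x) = b (tY x)) → (∀ x, tC (c x) = c (tZ x)) →
    ∃ k : K, (∀ x, tX x = k • x) ∧ (∀ x, tY x = k • x) ∧ (∀ x, tZ x = k • x) ∧
      (∀ x, tC x = k • x)

variable {a b c}

lemma le_one_aux {V : Type u} [AddCommGroup V] [Module K V] {k : K} (hk : k ≠ 0)
    (f : V →ₗ[K] K) (v : V) (h : ∀ x, (f.smulRight v) x = k • x) : Module.finrank K V ≤ 1 := by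
  apply finrank_le_one v
  intro w
  refine ⟨k⁻¹ * f w, ?_⟩
  have := h w
  rw [LinearMap.smulRight_apply] at this
  rw [mul_smul, this, smul_smul, inv_mul_cancel₀ hk, one_smul]

lemma rk1 (H : HS a b c) (fX : X →ₗ[K] K) (x0 : X) (fY : Y →ₗ[K] K) (y0 : Y) (fZ : Z →ₗ[K] K)
    (z0 : Z) (fC : C →ₗ[K] K) (c0 : C) (ha : ∀ x, fC (a x) • c0 = a (fX x • x0))
    (hb : ∀ x, fC (b x) • c0 = b (fY x • y0)) (hc : ∀ x, fC (c x) • c0 = c (fZ x • z0)) :
    (Module.finrank K X ≤ 1 ∧ Module.finrank K Y ≤ 1 ∧ Module.finrank K Z ≤ 1 ∧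
      Module.finrank K C ≤ 1) ∨
    ((∀ x, fX x • x0 = 0) ∧ (∀ x, fY x • y0 = 0) ∧ (∀ x, fZ x • z0 = 0) ∧
      (∀ x, fC x • c0 = 0)) := by
  obtain ⟨k, h1, h2, h3, h4⟩ := H (fX.smulRight x0) (fY.smulRight y0) (fZ.smulRight z0)
    (fC.smulRight c0) (fun x => by simpa using ha x) (fun x => by simpa using hb x)
    (fun x => by simpa using hc x)
  by_cases hk : k = 0
  · right
    subst hk
    refine ⟨fun x => ?_, fun x => ?_, fun x => ?_, fun x => ?_⟩
    · simpa using h1 x
    · simpa using h2 x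
    · simpa using h3 x
    · simpa using h4 x
  · left
    exact ⟨le_one_aux hk _ _ h1, le_one_aux hk _ _ h2, le_one_aux hk _ _ h3,
      le_one_aux hk _ _ h4⟩

lemma ext1 {X : Type u} [AddCommGroup X] [Module K X] (a : X →ₗ[K] C) (φ : C →ₗ[K] K) (u : C)
    (h : Ok φ u (LinearMap.range a)) :
    ∃ (f : X →ₗ[K] K) (x0 : X), ∀ x, φ (a x) • u = a (f x • x0) := by
  rcases h with ⟨x0, rfl⟩ | h
  · exact ⟨φ.comp a, x0, fun x => by simp⟩
  · exact ⟨0, 0, fun x => by rw [h _ (LinearMap.mem_range_self a x)]; simp⟩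

lemma inj1 (H : HS a b c) (hd : ¬ (Module.finrank K X ≤ 1 ∧ Module.finrank K Y ≤ 1 ∧
    Module.finrank K Z ≤ 1 ∧ Module.finrank K C ≤ 1)) : Function.Injective a := by
  rw [injective_iff_map_eq_zero]
  intro x hx
  by_contra hne
  obtain ⟨f, hf⟩ : ∃ f : Module.Dual K X, f x ≠ 0 := by
    by_contra hcon
    push Not at hcon
    exact hne ((Module.forall_dual_apply_eq_zero_iff K x).1 hcon)
  rcases rk1 H f x 0 0 0 0 0 0 (fun y => by simp [hx]) (fun y => by simp) (fun y => by simp)
    with h | h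
  · exact hd h
  · rcases smul_eq_zero.1 (h.1 x) with h0 | h0
    · exact hf h0
    · exact hne h0

lemma HS.rot (H : HS a b c) : HS b c a := by
  intro tX tY tZ tC h1 h2 h3
  obtain ⟨k, e1, e2, e3, e4⟩ := H tZ tX tY tC h3 h1 h2
  exact ⟨k, e2, e3, e1, e4⟩

end rep

/-- the basis part of the argument -/
lemma bases {K X Y Z C : Type u} [Field K]
    [AddCommGroup X] [Module K X] [AddCommGroup Y] [Module K Y] [AddCommGroup Z] [Module K Z]
    [AddCommGroup C] [Module K C] [FiniteDimensional K Z]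
    (a : X →ₗ[K] C) (b : Y →ₗ[K] C) (c : Z →ₗ[K] C)
    (ha : Function.Injective a) (hb : Function.Injective b) (hc : Function.Injective c)
    (i1 : LinearMap.range a ⊓ LinearMap.range b = ⊥)
    (i2 : LinearMap.range a ⊓ LinearMap.range c = ⊥)
    (i3 : LinearMap.range b ⊓ LinearMap.range c = ⊥)
    (s1 : LinearMap.range a ⊔ LinearMap.range b = ⊤)
    (s2 : LinearMap.range a ⊔ LinearMap.range c = ⊤)
    (s3 : LinearMap.range b ⊔ LinearMap.range c = ⊤) :
    ∃ (n1 n2 n3 n4 : ℕ) (bX : Module.Basis (Fin n1) K X) (bY : Module.Basis (Fin n2) K Y)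
      (bZ : Module.Basis (Fin n3) K Z) (bC : Module.Basis (Fin n4) K C),
      ZO bX bC a ∧ ZO bY bC b ∧ ZO bZ bC c := by
  have mem1 : ∀ (x : X) (y : Y), a x = b y → x = 0 ∧ y = 0 := by
    intro x y h
    have h0 : a x ∈ LinearMap.range a ⊓ LinearMap.range b :=
      ⟨LinearMap.mem_range_self a x, by rw [h]; exact LinearMap.mem_range_self b y⟩
    rw [i1, Submodule.mem_bot] at h0
    refine ⟨ha (by rw [h0, map_zero]), hb (by rw [← h, h0, map_zero])⟩
  have mem2 : ∀ (x : X) (z : Z), a x = c z → x = 0 ∧ z = 0 := by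
    intro x y h
    have h0 : a x ∈ LinearMap.range a ⊓ LinearMap.range c :=
      ⟨LinearMap.mem_range_self a x, by rw [h]; exact LinearMap.mem_range_self c y⟩
    rw [i2, Submodule.mem_bot] at h0
    refine ⟨ha (by rw [h0, map_zero]), hc (by rw [← h, h0, map_zero])⟩
  have mem3 : ∀ (x : Y) (z : Z), b x = c z → x = 0 ∧ z = 0 := by
    intro x y h
    have h0 : b x ∈ LinearMap.range b ⊓ LinearMap.range c :=
      ⟨LinearMap.mem_range_self b x, by rw [h]; exact LinearMap.mem_range_self c y⟩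
    rw [i3, Submodule.mem_bot] at h0
    refine ⟨hb (by rw [h0, map_zero]), hc (by rw [← h, h0, map_zero])⟩
  -- the equivalence `X × Y ≃ C`
  have hinj : Function.Injective (a.coprod b) := by
    rw [injective_iff_map_eq_zero]
    rintro ⟨x, y⟩ h
    rw [LinearMap.coprod_apply] at h
    have h2 : a x = b (-y) := by rw [map_neg]; exact eq_neg_of_add_eq_zero_left h
    obtain ⟨e1, e2⟩ := mem1 x (-y) h2
    rw [neg_eq_zero] at e2
    simp [e1, e2]
  have hsur : Function.Surjective (a.coprod b) := by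
    rw [← LinearMap.range_eq_top, LinearMap.range_coprod, s1]
  let e : (X × Y) ≃ₗ[K] C := LinearEquiv.ofBijective (a.coprod b) ⟨hinj, hsur⟩
  have he : ∀ x y, e (x, y) = a x + b y := fun x y => by
    show (a.coprod b) (x, y) = _
    rw [LinearMap.coprod_apply]
  have hdec : ∀ v : C, v = a (e.symm v).1 + b (e.symm v).2 := by
    intro v
    have := he (e.symm v).1 (e.symm v).2
    rw [← this]
    simp
  let p : Z →ₗ[K] X := (LinearMap.fst K X Y).comp (e.symm.toLinearMap.comp c)
  let q : Z →ₗ[K] Y := (LinearMap.snd K X Y).comp (e.symm.toLinearMap.comp c)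
  have hpq : ∀ z, c z = a (p z) + b (q z) := fun z => hdec (c z)
  have huniq : ∀ (x x' : X) (y y' : Y), a x + b y = a x' + b y' → x = x' ∧ y = y' := by
    intro x x' y y' h
    rw [← he, ← he] at h
    have := e.injective h
    exact ⟨congrArg Prod.fst this, congrArg Prod.snd this⟩
  have hp : Function.Bijective p := by
    constructor
    · rw [injective_iff_map_eq_zero]
      intro z hz
      have h := hpq z
      rw [hz, map_zero, zero_add] at h
      exact (mem3 _ _ h.symm).2
    · intro x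
      have hx : a x ∈ LinearMap.range b ⊔ LinearMap.range c := by rw [s3]; trivial
      obtain ⟨_, ⟨y, rfl⟩, _, ⟨z, rfl⟩, h⟩ := Submodule.mem_sup.1 hx
      refine ⟨z, ?_⟩
      have h2 : a (p z) + b (q z + y) = a x + b 0 := by
        rw [map_zero, add_zero, ← h, hpq z, map_add]
        abel
      exact (huniq _ _ _ _ h2).1
  have hq : Function.Bijective q := by
    constructor
    · rw [injective_iff_map_eq_zero]
      intro z hz
      have h := hpq z
      rw [hz, map_zero, add_zero] at h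
      exact (mem2 _ _ h.symm).2
    · intro y
      have hx : b y ∈ LinearMap.range a ⊔ LinearMap.range c := by rw [s2]; trivial
      obtain ⟨_, ⟨x, rfl⟩, _, ⟨z, rfl⟩, h⟩ := Submodule.mem_sup.1 hx
      refine ⟨z, ?_⟩
      have h2 : a (p z + x) + b (q z) = a 0 + b y := by
        rw [map_zero, zero_add, ← h, hpq z, map_add]
        abel
      exact (huniq _ _ _ _ h2).2
  let n := Module.finrank K Z
  let bZ : Module.Basis (Fin n) K Z := Module.finBasis K Z
  let bX : Module.Basis (Fin n) K X := bZ.map (LinearEquiv.ofBijective p hp)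
  let bY : Module.Basis (Fin n) K Y := bZ.map (LinearEquiv.ofBijective q hq)
  have hbX : ∀ i, bX i = p (bZ i) := fun i => by simp [bX]
  have hbY : ∀ i, bY i = q (bZ i) := fun i => by simp [bY]
  let bC : Module.Basis (Fin (n + n)) K C := ((bX.prod bY).map e).reindex finSumFinEquiv
  have hbC : ∀ s, bC (finSumFinEquiv s) = e ((bX.prod bY) s) := by
    intro s
    show (((bX.prod bY).map e).reindex finSumFinEquiv) (finSumFinEquiv s) = _
    rw [Module.Basis.reindex_apply, Equiv.symm_apply_apply, Module.Basis.map_apply]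
  have hl : ∀ i, a (bX i) = bC (finSumFinEquiv (Sum.inl i)) := by
    intro i
    rw [hbC, Module.Basis.prod_apply]
    simp [he]
  have hr : ∀ i, b (bY i) = bC (finSumFinEquiv (Sum.inr i)) := by
    intro i
    rw [hbC, Module.Basis.prod_apply]
    simp [he]
  have hsing : ∀ (i j : Fin (n + n)), bC.repr (bC i) j = if i = j then 1 else 0 := by
    intro i j
    rw [Module.Basis.repr_self, Finsupp.single_apply]
  refine ⟨n, n, n, n + n, bX, bY, bZ, bC, ?_, ?_, ?_⟩
  · intro i j
    rw [hl, hsing]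
    split_ifs
    · exact Or.inr rfl
    · exact Or.inl rfl
  · intro i j
    rw [hr, hsing]
    split_ifs
    · exact Or.inr rfl
    · exact Or.inl rfl
  · intro i j
    have h : c (bZ i) = bC (finSumFinEquiv (Sum.inl i)) + bC (finSumFinEquiv (Sum.inr i)) := by
      rw [← hl, ← hr, hbX, hbY]
      exact hpq _
    rw [h, map_add, Finsupp.add_apply, hsing, hsing]
    by_cases h1 : finSumFinEquiv (Sum.inl i) = j
    · have h2 : ¬ (finSumFinEquiv (Sum.inr i) = j) := by
        intro h2
        have := finSumFinEquiv.injective (h1.trans h2.symm)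
        cases this
      rw [if_pos h1, if_neg h2, add_zero]
      exact Or.inr rfl
    · rw [if_neg h1, zero_add]
      split_ifs
      · exact Or.inr rfl
      · exact Or.inl rfl

end D4

theorem t_D4 (h1 : S_N1.{u}) (_h2 : S_N2.{u}) : S_D4.{u} := by
  intro K _ X Y Z C _ _ _ _ _ _ _ _ _ _ _ _ a b c H
  by_cases hd : Module.finrank K X ≤ 1 ∧ Module.finrank K Y ≤ 1 ∧ Module.finrank K Z ≤ 1 ∧
      Module.finrank K C ≤ 1
  · obtain ⟨hX, hY, hZ, hC⟩ := hd
    obtain ⟨m1, bX, e1⟩ := h1 K X C _ (Module.finBasis K C) a hX hC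
    obtain ⟨m2, bY, e2⟩ := h1 K Y C _ (Module.finBasis K C) b hY hC
    obtain ⟨m3, bZ, e3⟩ := h1 K Z C _ (Module.finBasis K C) c hZ hC
    exact ⟨m1, m2, m3, _, bX, bY, bZ, Module.finBasis K C, e1, e2, e3⟩
  · have H0 : D4.HS a b c := H
    have ha : Function.Injective a := D4.inj1 H0 hd
    have hb : Function.Injective b := D4.inj1 H0.rot (fun h => hd ⟨h.2.2.1, h.1, h.2.1, h.2.2.2⟩)
    have hc : Function.Injective c :=
      D4.inj1 H0.rot.rot (fun h => hd ⟨h.2.1, h.2.2.1, h.1, h.2.2.2⟩)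
    have hnt : Nontrivial C := by
      by_contra hC
      rw [not_nontrivial_iff_subsingleton] at hC
      have hX : Subsingleton X := ha.subsingleton
      have hY : Subsingleton Y := hb.subsingleton
      have hZ : Subsingleton Z := hc.subsingleton
      apply hd
      refine ⟨?_, ?_, ?_, ?_⟩
      · rw [Module.finrank_zero_of_subsingleton]; exact zero_le_one
      · rw [Module.finrank_zero_of_subsingleton]; exact zero_le_one
      · rw [Module.finrank_zero_of_subsingleton]; exact zero_le_one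
      · rw [Module.finrank_zero_of_subsingleton]; exact zero_le_one
    have hP : D4.HP (LinearMap.range a) (LinearMap.range b) (LinearMap.range c) := by
      intro φ u o1 o2 o3
      obtain ⟨fX, x0, g1⟩ := D4.ext1 a φ u o1
      obtain ⟨fY, y0, g2⟩ := D4.ext1 b φ u o2
      obtain ⟨fZ, z0, g3⟩ := D4.ext1 c φ u o3
      rcases D4.rk1 H0 fX x0 fY y0 fZ z0 φ u g1 g2 g3 with h | h
      · exact absurd h hd
      · by_cases hu : u = 0
        · exact Or.inr hu
        · left
          ext x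
          rcases smul_eq_zero.1 (h.2.2.2 x) with h0 | h0
          · rw [h0]; rfl
          · exact absurd h0 hu
    have nA := hP.ne_bot
    have nB := hP.rot.ne_bot
    have nD := hP.rot.rot.ne_bot
    have i1 := hP.inf
    have i3 := hP.rot.inf
    have i2 := hP.rot.rot.inf
    have s3 := hP.sup nA
    have s2 := hP.rot.sup nB
    have s1 := hP.rot.rot.sup nD
    exact D4.bases a b c ha hb hc i1 (by rw [inf_comm]; exact i2) i3 s1
      (by rw [sup_comm]; exact s2) s3

end WS862
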