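import Mathlib

/-!
# A wild Schur-representation-finite algebra of finite global dimension (MP_72314f_al)

The algebra is the radical square zero algebra `A` of the acyclic quiver with the five vertices
`0, 1, 2, 3, 4` and the seven arrows `0 → 2, 0 → 4, 1 → 2, 1 → 3, 2 → 3, 2 → 4, 3 → 4`.
-/

set_option autoImplicit false

universe u

namespace WS862

/-! ### Modules as algebra homomorphisms -/

section modules
variable {K : Type u} [Field K] {A : Type u} [Ring A] [Algebra K A]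
variable {V W : Type u} [AddCommGroup V] [Module K V] [AddCommGroup W] [Module K W]

/-- the modules `ρ` and `σ` are isomorphic -/
def Iso (ρ : A →ₐ[K] Module.End K V) (σ : A →ₐ[K] Module.End K W) : Prop :=
  ∃ e : V ≃ₗ[K] W, ∀ (a : A) (v : V), e (ρ a v) = σ a (e v)

/-- the module `ρ` is indecomposable: it is non-zero and the only idempotent endomorphisms are
`0` and `1` -/
def Indec (ρ : A →ₐ[K] Module.End K V) : Prop :=
  Nontrivial V ∧ ∀ e : Module.End K V, e * e = e → (∀ a : A, e * ρ a = ρ a * e) → e = 0 ∨ e = 1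

/-- the module `ρ` is a Schur module: it is non-zero and all endomorphisms are scalars -/
def Schur (ρ : A →ₐ[K] Module.End K V) : Prop :=
  Nontrivial V ∧ ∀ e : Module.End K V, (∀ a : A, e * ρ a = ρ a * e) → ∃ c : K, e = c • 1

/-- For an algebra homomorphism `Φ` from `A` to the matrices over `F = K⟨x, y⟩` (that is, an
`A`-`F`-bimodule `B = F ^ ι`, free of finite rank as a right `F`-module) and an `F`-module `ρ` on
`V`, the `A`-module `B ⊗_F V = V ^ ι`. -/
noncomputable def ind {ι : Type} [Fintype ι] [DecidableEq ι]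
    (Φ : A →ₐ[K] Matrix ι ι (FreeAlgebra K (Fin 2))) (ρ : FreeAlgebra K (Fin 2) →ₐ[K] Module.End K V) :
    A →ₐ[K] Module.End K (ι → V) :=
  (endVecAlgEquivMatrixEnd ι K K V).symm.toAlgHom.comp (ρ.mapMatrix.comp Φ)

lemma ind_apply {ι : Type} [Fintype ι] [DecidableEq ι]
    (Φ : A →ₐ[K] Matrix ι ι (FreeAlgebra K (Fin 2))) (ρ : FreeAlgebra K (Fin 2) →ₐ[K] Module.End K V)
    (a : A) (v : ι → V) (i : ι) : ind Φ ρ a v i = ∑ j, ρ (Φ a i j) (v j) := by
  simp [ind, endVecAlgEquivMatrixEnd]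

end modules

/-- the algebra is wild -/
def Wild (K A : Type u) [Field K] [Ring A] [Algebra K A] : Prop :=
  ∃ (ι : Type) (_ : Fintype ι) (_ : DecidableEq ι) (Φ : A →ₐ[K] Matrix ι ι (FreeAlgebra K (Fin 2))),
    (∀ (V : Type u) [AddCommGroup V] [Module K V] [FiniteDimensional K V]
      (ρ : FreeAlgebra K (Fin 2) →ₐ[K] Module.End K V), Indec ρ → Indec (ind Φ ρ)) ∧
    (∀ (V W : Type u) [AddCommGroup V] [Module K V] [FiniteDimensional K V] [AddCommGroup W]
      [Module K W] [FiniteDimensional K W] (ρ : FreeAlgebra K (Fin 2) →ₐ[K] Module.End K V)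
      (σ : FreeAlgebra K (Fin 2) →ₐ[K] Module.End K W), Iso (ind Φ ρ) (ind Φ σ) → Iso ρ σ)

/-- the algebra is Schur-representation-finite: there are only finitely many isomorphism classes of
Schur modules of each dimension -/
def SchurFinite (K A : Type u) [Field K] [Ring A] [Algebra K A] : Prop :=
  ∀ d : ℕ, ∃ (m : ℕ) (F : Fin m → (A →ₐ[K] Module.End K (Fin d → K))),
    ∀ (V : Type u) [AddCommGroup V] [Module K V] [FiniteDimensional K V]
      (ρ : A →ₐ[K] Module.End K V), Schur ρ → Module.finrank K V = d → ∃ i, Iso ρ (F i)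

/-- the global dimension is finite -/
def FinGlDim (A : Type u) [Ring A] : Prop :=
  ∃ n : ℕ, ∀ M : ModuleCat.{u} A, CategoryTheory.HasProjectiveDimensionLT M n

/-! ### The algebra -/

/-- the radical square zero algebra of the quiver with vertices `Q`, arrows `E`, sources `s` and
targets `t`: the first component of an element are the coefficients of the vertices, the second
component those of the arrows -/
def R2 (K : Type u) (Q E : Type) (_s _t : E → Q) : Type u := (Q → K) × (E → K)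

namespace R2
variable {K : Type u} [Field K] {Q E : Type} {s t : E → Q}

instance : AddCommGroup (R2 K Q E s t) := inferInstanceAs (AddCommGroup ((Q → K) × (E → K)))
instance : Module K (R2 K Q E s t) := inferInstanceAs (Module K ((Q → K) × (E → K)))

instance : Mul (R2 K Q E s t) :=
  ⟨fun x y => (x.1 * y.1, fun a => x.1 (t a) * y.2 a + x.2 a * y.1 (s a))⟩

instance : One (R2 K Q E s t) := ⟨((1 : Q → K), (0 : E → K))⟩

lemma ext' {x y : R2 K Q E s t} (h1 : ∀ i, x.1 i = y.1 i) (h2 : ∀ a, x.2 a = y.2 a) : x = y :=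
  Prod.ext (funext h1) (funext h2)

@[simp] lemma mul_1 (x y : R2 K Q E s t) (i : Q) : (x * y).1 i = x.1 i * y.1 i := rfl
@[simp] lemma mul_2 (x y : R2 K Q E s t) (a : E) :
    (x * y).2 a = x.1 (t a) * y.2 a + x.2 a * y.1 (s a) := rfl
@[simp] lemma one_1 (i : Q) : (1 : R2 K Q E s t).1 i = 1 := rfl
@[simp] lemma one_2 (a : E) : (1 : R2 K Q E s t).2 a = 0 := rfl
@[simp] lemma add_1 (x y : R2 K Q E s t) (i : Q) : (x + y).1 i = x.1 i + y.1 i := rfl
@[simp] lemma add_2 (x y : R2 K Q E s t) (a : E) : (x + y).2 a = x.2 a + y.2 a := rfl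
@[simp] lemma smul_1 (c : K) (x : R2 K Q E s t) (i : Q) : (c • x).1 i = c * x.1 i := rfl
@[simp] lemma smul_2 (c : K) (x : R2 K Q E s t) (a : E) : (c • x).2 a = c * x.2 a := rfl
@[simp] lemma zero_1 (i : Q) : (0 : R2 K Q E s t).1 i = 0 := rfl
@[simp] lemma zero_2 (a : E) : (0 : R2 K Q E s t).2 a = 0 := rfl

instance : Ring (R2 K Q E s t) :=
  { (inferInstance : AddCommGroup (R2 K Q E s t)) with
    mul := (· * ·)
    one := 1
    mul_assoc := fun x y z => ext' (fun i => by simp [mul_assoc]) (fun a => by simp; ring)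
    one_mul := fun x => ext' (fun i => by simp) (fun a => by simp)
    mul_one := fun x => ext' (fun i => by simp) (fun a => by simp)
    left_distrib := fun x y z => ext' (fun i => by simp [mul_add]) (fun a => by simp; ring)
    right_distrib := fun x y z => ext' (fun i => by simp [add_mul]) (fun a => by simp; ring)
    zero_mul := fun x => ext' (fun i => by simp) (fun a => by simp)
    mul_zero := fun x => ext' (fun i => by simp) (fun a => by simp) }

instance : Algebra K (R2 K Q E s t) :=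
  Algebra.ofModule
    (fun c x y => ext' (fun i => by simp [mul_assoc]) (fun a => by simp; ring))
    (fun c x y => ext' (fun i => by simp; ring) (fun a => by simp; ring))

/-- the idempotent of a vertex -/
def e [DecidableEq Q] (i : Q) : R2 K Q E s t := (Pi.single i 1, 0)

/-- the arrow -/
def ar [DecidableEq E] (a : E) : R2 K Q E s t := (0, Pi.single a 1)

end R2

/-- sources of the arrows -/
def src : Fin 7 → Fin 5 := ![0, 0, 1, 1, 2, 2, 3]

/-- targets of the arrows -/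
def tgt : Fin 7 → Fin 5 := ![2, 4, 2, 3, 3, 4, 4]

/-- the algebra: the radical square zero algebra of the quiver with arrows
`0 → 2, 0 → 4, 1 → 2, 1 → 3, 2 → 3, 2 → 4, 3 → 4` -/
abbrev Alg (K : Type u) : Type u := R2 K (Fin 5) (Fin 7) src tgt

/-! ### Representations -/

section reps
variable (K : Type u) [Field K] (V0 V1 V2 V3 V4 : Type u)
  [AddCommGroup V0] [Module K V0] [AddCommGroup V1] [Module K V1] [AddCommGroup V2] [Module K V2]
  [AddCommGroup V3] [Module K V3] [AddCommGroup V4] [Module K V4]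

/-- representations of the bound quiver -/
structure Rp where
  a0 : V0 →ₗ[K] V2
  a1 : V0 →ₗ[K] V4
  a2 : V1 →ₗ[K] V2
  a3 : V1 →ₗ[K] V3
  a4 : V2 →ₗ[K] V3
  a5 : V2 →ₗ[K] V4
  a6 : V3 →ₗ[K] V4
  r04 : ∀ x, a4 (a0 x) = 0
  r05 : ∀ x, a5 (a0 x) = 0
  r24 : ∀ x, a4 (a2 x) = 0
  r25 : ∀ x, a5 (a2 x) = 0
  r36 : ∀ x, a6 (a3 x) = 0
  r46 : ∀ x, a6 (a4 x) = 0

variable {K V0 V1 V2 V3 V4}

/-- Schur representations -/
def SchurR (R : Rp K V0 V1 V2 V3 V4) : Prop :=
  (Nontrivial V0 ∨ Nontrivial V1 ∨ Nontrivial V2 ∨ Nontrivial V3 ∨ Nontrivial V4) ∧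
  ∀ (T0 : V0 →ₗ[K] V0) (T1 : V1 →ₗ[K] V1) (T2 : V2 →ₗ[K] V2) (T3 : V3 →ₗ[K] V3)
    (T4 : V4 →ₗ[K] V4),
    (∀ x, T2 (R.a0 x) = R.a0 (T0 x)) → (∀ x, T4 (R.a1 x) = R.a1 (T0 x)) →
    (∀ x, T2 (R.a2 x) = R.a2 (T1 x)) → (∀ x, T3 (R.a3 x) = R.a3 (T1 x)) →
    (∀ x, T3 (R.a4 x) = R.a4 (T2 x)) → (∀ x, T4 (R.a5 x) = R.a5 (T2 x)) →
    (∀ x, T4 (R.a6 x) = R.a6 (T3 x)) →
    ∃ c : K, (∀ x, T0 x = c • x) ∧ (∀ x, T1 x = c • x) ∧ (∀ x, T2 x = c • x) ∧
      (∀ x, T3 x = c • x) ∧ (∀ x, T4 x = c • x)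

end reps

/-- the matrix of `f` in the bases `b` and `c` has entries `0` and `1` only -/
def ZO {K V W : Type u} [Field K] [AddCommGroup V] [Module K V] [AddCommGroup W] [Module K W]
    {m n : ℕ} (b : Module.Basis (Fin m) K V) (c : Module.Basis (Fin n) K W) (f : V →ₗ[K] W) : Prop :=
  ∀ i j, c.repr (f (b i)) j = 0 ∨ c.repr (f (b i)) j = 1

/-! ### The pieces -/

/-- WILD -/
def S_WILD : Prop := ∀ (K : Type u) [Field K] [CharZero K], Wild K (Alg K)

/-- GD -/
def S_GD : Prop := ∀ (K : Type u) [Field K], FinGlDim (Alg K)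

/-- ZOB: all Schur representations have bases with 0-1-matrices -/
def S_ZOB : Prop := ∀ (K : Type u) [Field K] (V0 V1 V2 V3 V4 : Type u)
  [AddCommGroup V0] [Module K V0] [AddCommGroup V1] [Module K V1] [AddCommGroup V2] [Module K V2]
  [AddCommGroup V3] [Module K V3] [AddCommGroup V4] [Module K V4] [FiniteDimensional K V0]
  [FiniteDimensional K V1] [FiniteDimensional K V2] [FiniteDimensional K V3]
  [FiniteDimensional K V4] (R : Rp K V0 V1 V2 V3 V4), SchurR R →
  ∃ (n0 n1 n2 n3 n4 : ℕ) (b0 : Module.Basis (Fin n0) K V0) (b1 : Module.Basis (Fin n1) K V1)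
    (b2 : Module.Basis (Fin n2) K V2) (b3 : Module.Basis (Fin n3) K V3)
    (b4 : Module.Basis (Fin n4) K V4), ZO b0 b2 R.a0 ∧ ZO b0 b4 R.a1 ∧ ZO b1 b2 R.a2 ∧
      ZO b1 b3 R.a3 ∧ ZO b2 b3 R.a4 ∧ ZO b2 b4 R.a5 ∧ ZO b3 b4 R.a6

/-- FIN: prove `theorem t_FIN (h : S_ZOB.{u}) : S_FIN.{u}` -/
def S_FIN : Prop := ∀ (K : Type u) [Field K], SchurFinite K (Alg K)

/-- CONF: at the vertices `2` and `3` all incoming or all outgoing arrows vanish -/
def S_CONF : Prop := ∀ (K : Type u) [Field K] (V0 V1 V2 V3 V4 : Type u)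
  [AddCommGroup V0] [Module K V0] [AddCommGroup V1] [Module K V1] [AddCommGroup V2] [Module K V2]
  [AddCommGroup V3] [Module K V3] [AddCommGroup V4] [Module K V4] (R : Rp K V0 V1 V2 V3 V4),
  SchurR R →
  ((R.a0 = 0 ∧ R.a2 = 0) ∨ (R.a4 = 0 ∧ R.a5 = 0)) ∧ ((R.a3 = 0 ∧ R.a4 = 0) ∨ R.a6 = 0)

/-- N1: normalisation of a map of spaces of dimension at most one, target basis given -/
def S_N1 : Prop := ∀ (K : Type u) [Field K] (V W : Type u) [AddCommGroup V] [Module K V]
  [AddCommGroup W] [Module K W] [FiniteDimensional K V] [FiniteDimensional K W] (n : ℕ)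
  (c : Module.Basis (Fin n) K W) (f : V →ₗ[K] W), Module.finrank K V ≤ 1 →
  Module.finrank K W ≤ 1 → ∃ (m : ℕ) (b : Module.Basis (Fin m) K V), ZO b c f

/-- N2: the same, source basis given -/
def S_N2 : Prop := ∀ (K : Type u) [Field K] (V W : Type u) [AddCommGroup V] [Module K V]
  [AddCommGroup W] [Module K W] [FiniteDimensional K V] [FiniteDimensional K W] (n : ℕ)
  (b : Module.Basis (Fin n) K V) (f : V →ₗ[K] W), Module.finrank K V ≤ 1 →
  Module.finrank K W ≤ 1 → ∃ (m : ℕ) (c : Module.Basis (Fin m) K W), ZO b c f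

/-- T1: the quiver `E ← S → C ← T → F` -/
def S_T1 : Prop := ∀ (K : Type u) [Field K] (E S C T F : Type u)
  [AddCommGroup E] [Module K E] [AddCommGroup S] [Module K S] [AddCommGroup C] [Module K C]
  [AddCommGroup T] [Module K T] [AddCommGroup F] [Module K F] [FiniteDimensional K E]
  [FiniteDimensional K S] [FiniteDimensional K C] [FiniteDimensional K T] [FiniteDimensional K F]
  (a : S →ₗ[K] E) (b : S →ₗ[K] C) (c : T →ₗ[K] C) (d : T →ₗ[K] F),
  (∀ (tE : E →ₗ[K] E) (tS : S →ₗ[K] S) (tC : C →ₗ[K] C) (tT : T →ₗ[K] T) (tF : F →ₗ[K] F),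
    (∀ x, tE (a x) = a (tS x)) → (∀ x, tC (b x) = b (tS x)) → (∀ x, tC (c x) = c (tT x)) →
    (∀ x, tF (d x) = d (tT x)) → ∃ k : K, (∀ x, tE x = k • x) ∧ (∀ x, tS x = k • x) ∧
      (∀ x, tC x = k • x) ∧ (∀ x, tT x = k • x) ∧ (∀ x, tF x = k • x)) →
  ∃ (n1 n2 n3 n4 n5 : ℕ) (bE : Module.Basis (Fin n1) K E) (bS : Module.Basis (Fin n2) K S)
    (bC : Module.Basis (Fin n3) K C) (bT : Module.Basis (Fin n4) K T)
    (bF : Module.Basis (Fin n5) K F), ZO bS bE a ∧ ZO bS bC b ∧ ZO bT bC c ∧ ZO bT bF d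

/-- T2: the quiver `S → E ← C → F ← T` -/
def S_T2 : Prop := ∀ (K : Type u) [Field K] (S E C F T : Type u)
  [AddCommGroup S] [Module K S] [AddCommGroup E] [Module K E] [AddCommGroup C] [Module K C]
  [AddCommGroup F] [Module K F] [AddCommGroup T] [Module K T] [FiniteDimensional K S]
  [FiniteDimensional K E] [FiniteDimensional K C] [FiniteDimensional K F] [FiniteDimensional K T]
  (a : S →ₗ[K] E) (b : C →ₗ[K] E) (c : C →ₗ[K] F) (d : T →ₗ[K] F),
  (∀ (tS : S →ₗ[K] S) (tE : E →ₗ[K] E) (tC : C →ₗ[K] C) (tF : F →ₗ[K] F) (tT : T →ₗ[K] T),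
    (∀ x, tE (a x) = a (tS x)) → (∀ x, tE (b x) = b (tC x)) → (∀ x, tF (c x) = c (tC x)) →
    (∀ x, tF (d x) = d (tT x)) → ∃ k : K, (∀ x, tS x = k • x) ∧ (∀ x, tE x = k • x) ∧
      (∀ x, tC x = k • x) ∧ (∀ x, tF x = k • x) ∧ (∀ x, tT x = k • x)) →
  ∃ (n1 n2 n3 n4 n5 : ℕ) (bS : Module.Basis (Fin n1) K S) (bE : Module.Basis (Fin n2) K E)
    (bC : Module.Basis (Fin n3) K C) (bF : Module.Basis (Fin n4) K F)
    (bT : Module.Basis (Fin n5) K T), ZO bS bE a ∧ ZO bC bE b ∧ ZO bC bF c ∧ ZO bT bF d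

/-- D4: the quiver `X → C ← Y`, `Z → C` -/
def S_D4 : Prop := ∀ (K : Type u) [Field K] (X Y Z C : Type u)
  [AddCommGroup X] [Module K X] [AddCommGroup Y] [Module K Y] [AddCommGroup Z] [Module K Z]
  [AddCommGroup C] [Module K C] [FiniteDimensional K X] [FiniteDimensional K Y]
  [FiniteDimensional K Z] [FiniteDimensional K C]
  (a : X →ₗ[K] C) (b : Y →ₗ[K] C) (c : Z →ₗ[K] C),
  (∀ (tX : X →ₗ[K] X) (tY : Y →ₗ[K] Y) (tZ : Z →ₗ[K] Z) (tC : C →ₗ[K] C),
    (∀ x, tC (a x) = a (tX x)) → (∀ x, tC (b x) = b (tY x)) → (∀ x, tC (c x) = c (tZ x)) →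
    ∃ k : K, (∀ x, tX x = k • x) ∧ (∀ x, tY x = k • x) ∧ (∀ x, tZ x = k • x) ∧
      (∀ x, tC x = k • x)) →
  ∃ (n1 n2 n3 n4 : ℕ) (bX : Module.Basis (Fin n1) K X) (bY : Module.Basis (Fin n2) K Y)
    (bZ : Module.Basis (Fin n3) K Z) (bC : Module.Basis (Fin n4) K C),
    ZO bX bC a ∧ ZO bY bC b ∧ ZO bZ bC c

/-- the final statement -/
def S_MAIN : Prop := ∀ (K : Type u) [Field K] [IsAlgClosed K] [CharZero K],
  ∃ (A : Type u) (_ : Ring A) (_ : Algebra K A), FiniteDimensional K A ∧ Wild K A ∧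
    SchurFinite K A ∧ FinGlDim A

end WS862
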