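import Pool.Agent.R862.WS.Defs

set_option autoImplicit false

universe u

namespace WS862

namespace FINx

/-! ### the generators -/

section gens
variable {K : Type u} [Field K]

theorem e_1 (i k : Fin 5) : (R2.e i : Alg K).1 k = if k = i then 1 else 0 := by
  simp only [R2.e, Pi.single_apply]

theorem e_2 (i : Fin 5) (a : Fin 7) : (R2.e i : Alg K).2 a = 0 := rfl

theorem ar_1 (a : Fin 7) (k : Fin 5) : (R2.ar a : Alg K).1 k = 0 := rfl

theorem ar_2 (a b : Fin 7) : (R2.ar a : Alg K).2 b = if b = a then 1 else 0 := by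
  simp only [R2.ar, Pi.single_apply]

theorem e_mul_e (i j : Fin 5) : (R2.e i * R2.e j : Alg K) = if i = j then R2.e i else 0 := by
  refine R2.ext' (fun k => ?_) (fun a => ?_)
  · rw [R2.mul_1, e_1, e_1]
    by_cases h : i = j
    · subst h
      rw [if_pos rfl, e_1]
      split_ifs <;> simp
    · rw [if_neg h, R2.zero_1]
      by_cases hk : k = i
      · subst hk; simp [h]
      · simp [hk]
  · rw [R2.mul_2, e_2, e_2]
    split_ifs <;> simp [e_2]

theorem sum_1 {ι : Type} (s : Finset ι) (f : ι → Alg K) (i : Fin 5) :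
    (∑ k ∈ s, f k).1 i = ∑ k ∈ s, (f k).1 i := by
  classical
  induction s using Finset.induction_on with
  | empty => simp
  | insert a s ha ih => rw [Finset.sum_insert ha, Finset.sum_insert ha, R2.add_1, ih]

theorem sum_2 {ι : Type} (s : Finset ι) (f : ι → Alg K) (i : Fin 7) :
    (∑ k ∈ s, f k).2 i = ∑ k ∈ s, (f k).2 i := by
  classical
  induction s using Finset.induction_on with
  | empty => simp
  | insert a s ha ih => rw [Finset.sum_insert ha, Finset.sum_insert ha, R2.add_2, ih]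

theorem sum_e : (∑ i, R2.e i : Alg K) = 1 := by
  refine R2.ext' (fun k => ?_) (fun a => ?_)
  · rw [sum_1, R2.one_1]
    simp [e_1]
  · rw [sum_2, R2.one_2]
    exact Finset.sum_eq_zero fun i _ => e_2 i a

theorem e_mul_ar (i : Fin 5) (a : Fin 7) :
    (R2.e i * R2.ar a : Alg K) = if i = tgt a then R2.ar a else 0 := by
  refine R2.ext' (fun k => ?_) (fun b => ?_)
  · rw [R2.mul_1, ar_1, mul_zero]
    split_ifs
    · rw [ar_1]
    · rw [R2.zero_1]
  · rw [R2.mul_2, ar_2, e_2, zero_mul, add_zero, e_1]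
    by_cases hb : b = a
    · subst hb
      by_cases h : i = tgt b
      · subst h
        simp [ar_2]
      · rw [if_neg h, if_neg (Ne.symm h), zero_mul, R2.zero_2]
    · rw [if_neg hb, mul_zero]
      split_ifs
      · rw [ar_2, if_neg hb]
      · rw [R2.zero_2]

theorem ar_mul_e (i : Fin 5) (a : Fin 7) :
    (R2.ar a * R2.e i : Alg K) = if i = src a then R2.ar a else 0 := by
  refine R2.ext' (fun k => ?_) (fun b => ?_)
  · rw [R2.mul_1, ar_1, zero_mul]
    split_ifs
    · rw [ar_1]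
    · rw [R2.zero_1]
  · rw [R2.mul_2, ar_2, e_2, mul_zero, zero_add, e_1]
    by_cases hb : b = a
    · subst hb
      by_cases h : i = src b
      · subst h
        simp [ar_2]
      · rw [if_neg h, if_neg (Ne.symm h), mul_zero, R2.zero_2]
    · rw [if_neg hb, zero_mul]
      split_ifs
      · rw [ar_2, if_neg hb]
      · rw [R2.zero_2]

theorem ar_mul_ar (a b : Fin 7) : (R2.ar a * R2.ar b : Alg K) = 0 :=
  R2.ext' (fun k => by rw [R2.mul_1, ar_1, zero_mul, R2.zero_1])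
    (fun c => by rw [R2.mul_2, ar_1, ar_1, zero_mul, mul_zero, add_zero, R2.zero_2])

theorem decomp (x : Alg K) :
    x = ∑ i, x.1 i • (R2.e i : Alg K) + ∑ a, x.2 a • (R2.ar a : Alg K) := by
  refine R2.ext' (fun k => ?_) (fun b => ?_)
  · rw [R2.add_1, sum_1, sum_1]
    simp only [R2.smul_1, e_1, ar_1, mul_zero, Finset.sum_const_zero, add_zero]
    simp
  · rw [R2.add_2, sum_2, sum_2]
    simp only [R2.smul_2, e_2, ar_2, mul_zero, Finset.sum_const_zero, zero_add]
    simp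

/-- two linear maps which agree on the generators -/
theorem ext_gen {M : Type u} [AddCommGroup M] [Module K M] {f g : Alg K →ₗ[K] M}
    (h1 : ∀ i, f (R2.e i) = g (R2.e i)) (h2 : ∀ a, f (R2.ar a) = g (R2.ar a)) : f = g := by
  refine LinearMap.ext fun x => ?_
  rw [decomp x]
  simp only [map_add, map_sum, map_smul, h1, h2]

end gens

/-! ### the decomposition of a module -/

section module
variable {K : Type u} [Field K] {V : Type u} [AddCommGroup V] [Module K V]
variable (ρ : Alg K →ₐ[K] Module.End K V)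

/-- the summands -/
def Vi (i : Fin 5) : Submodule K V := LinearMap.range (ρ (R2.e i))

theorem mem_Vi (i : Fin 5) (x : V) : ρ (R2.e i) x ∈ Vi ρ i := ⟨x, rfl⟩

theorem ee (i j : Fin 5) (x : V) :
    ρ (R2.e i) (ρ (R2.e j) x) = if i = j then ρ (R2.e i) x else 0 := by
  rw [← Module.End.mul_apply, ← map_mul, e_mul_e]
  split_ifs
  · rfl
  · rw [map_zero, LinearMap.zero_apply]

theorem ea (i : Fin 5) (a : Fin 7) (x : V) :
    ρ (R2.e i) (ρ (R2.ar a) x) = if i = tgt a then ρ (R2.ar a) x else 0 := by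
  rw [← Module.End.mul_apply, ← map_mul, e_mul_ar]
  split_ifs
  · rfl
  · rw [map_zero, LinearMap.zero_apply]

theorem ae (i : Fin 5) (a : Fin 7) (x : V) :
    ρ (R2.ar a) (ρ (R2.e i) x) = if i = src a then ρ (R2.ar a) x else 0 := by
  rw [← Module.End.mul_apply, ← map_mul, ar_mul_e]
  split_ifs
  · rfl
  · rw [map_zero, LinearMap.zero_apply]

theorem aa (a b : Fin 7) (x : V) : ρ (R2.ar a) (ρ (R2.ar b) x) = 0 := by
  rw [← Module.End.mul_apply, ← map_mul, ar_mul_ar, map_zero, LinearMap.zero_apply]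

theorem fix {i : Fin 5} {x : V} (hx : x ∈ Vi ρ i) (j : Fin 5) :
    ρ (R2.e j) x = if j = i then x else 0 := by
  obtain ⟨y, rfl⟩ := hx
  rw [ee]
  split_ifs with h
  · rw [h]
  · rfl

theorem sum_fix (x : V) : ∑ i, ρ (R2.e i) x = x := by
  rw [← LinearMap.sum_apply, ← map_sum, sum_e, map_one, Module.End.one_apply]

theorem ar_mem (a : Fin 7) (x : V) : ρ (R2.ar a) x ∈ Vi ρ (tgt a) :=
  ⟨ρ (R2.ar a) x, by rw [ea, if_pos rfl]⟩

theorem ar_fix {i : Fin 5} {x : V} (hx : x ∈ Vi ρ i) (a : Fin 7) (h : i ≠ src a) :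
    ρ (R2.ar a) x = 0 := by
  obtain ⟨y, rfl⟩ := hx
  rw [ae, if_neg h]

theorem internal : DirectSum.IsInternal (Vi ρ) := by
  apply DirectSum.isInternal_submodule_of_iSupIndep_of_iSup_eq_top
  · rw [iSupIndep_def]
    intro i
    rw [Submodule.disjoint_def]
    intro x hx hx2
    have h1 : (⨆ j, ⨆ (_ : j ≠ i), Vi ρ j) ≤ LinearMap.ker (ρ (R2.e i)) := by
      refine iSup_le fun j => iSup_le fun hj => ?_
      intro y hy
      rw [LinearMap.mem_ker, fix ρ hy, if_neg (Ne.symm hj)]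
    have h2 := h1 hx2
    rw [LinearMap.mem_ker, fix ρ hx, if_pos rfl] at h2
    exact h2
  · rw [eq_top_iff]
    intro x _
    rw [← sum_fix ρ x]
    exact Submodule.sum_mem _ fun i _ => Submodule.mem_iSup_of_mem i (mem_Vi ρ i x)

/-- the arrows -/
def Ar (a : Fin 7) : Vi ρ (src a) →ₗ[K] Vi ρ (tgt a) :=
  (ρ (R2.ar a)).restrict fun x _ => ar_mem ρ a x

theorem Ar_coe (a : Fin 7) (x : Vi ρ (src a)) : (Ar ρ a x : V) = ρ (R2.ar a) x := rfl

/-- the representation -/
def RR : Rp K (Vi ρ 0) (Vi ρ 1) (Vi ρ 2) (Vi ρ 3) (Vi ρ 4) where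
  a0 := Ar ρ 0
  a1 := Ar ρ 1
  a2 := Ar ρ 2
  a3 := Ar ρ 3
  a4 := Ar ρ 4
  a5 := Ar ρ 5
  a6 := Ar ρ 6
  r04 := fun x => Subtype.ext (aa ρ 4 0 x)
  r05 := fun x => Subtype.ext (aa ρ 5 0 x)
  r24 := fun x => Subtype.ext (aa ρ 4 2 x)
  r25 := fun x => Subtype.ext (aa ρ 5 2 x)
  r36 := fun x => Subtype.ext (aa ρ 6 3 x)
  r46 := fun x => Subtype.ext (aa ρ 6 4 x)

variable {ρ} in
/-- glued endomorphism -/
noncomputable def glue (T : ∀ i, Vi ρ i →ₗ[K] Vi ρ i) : Module.End K V :=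
  ∑ i, (Vi ρ i).subtype ∘ₗ T i ∘ₗ (ρ (R2.e i)).rangeRestrict

variable {ρ} in
theorem glue_apply (T : ∀ i, Vi ρ i →ₗ[K] Vi ρ i) (x : V) :
    glue T x = ∑ i, (T i ⟨ρ (R2.e i) x, mem_Vi ρ i x⟩ : V) := by
  unfold glue
  rw [LinearMap.sum_apply]
  rfl

variable {ρ} in
theorem glue_mem (T : ∀ i, Vi ρ i →ₗ[K] Vi ρ i) (j : Fin 5) (x : V) (hx : x ∈ Vi ρ j) :
    glue T x = T j ⟨x, hx⟩ := by
  rw [glue_apply, Finset.sum_eq_single j]
  · congr 2
    apply Subtype.ext
    show ρ (R2.e j) x = x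
    rw [fix ρ hx, if_pos rfl]
  · intro i _ hi
    have h : (⟨ρ (R2.e i) x, mem_Vi ρ i x⟩ : Vi ρ i) = 0 := by
      apply Subtype.ext
      show ρ (R2.e i) x = 0
      rw [fix ρ hx, if_neg hi]
    rw [h, map_zero]
    rfl
  · simp

variable {ρ} in
theorem e_glue (T : ∀ i, Vi ρ i →ₗ[K] Vi ρ i) (j : Fin 5) (x : V) :
    ρ (R2.e j) (glue T x) = T j ⟨ρ (R2.e j) x, mem_Vi ρ j x⟩ := by
  rw [glue_apply, map_sum, Finset.sum_eq_single j]
  · rw [fix ρ (T j ⟨ρ (R2.e j) x, mem_Vi ρ j x⟩).2, if_pos rfl]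
  · intro i _ hi
    rw [fix ρ (T i ⟨ρ (R2.e i) x, mem_Vi ρ i x⟩).2, if_neg (Ne.symm hi)]
  · simp

variable {ρ} in
theorem glue_comm (T : ∀ i, Vi ρ i →ₗ[K] Vi ρ i)
    (hT : ∀ a x, T (tgt a) (Ar ρ a x) = Ar ρ a (T (src a) x)) (y : Alg K) :
    glue T * ρ y = ρ y * glue T := by
  have h : (LinearMap.mulLeft K (glue T)) ∘ₗ ρ.toLinearMap =
      (LinearMap.mulRight K (glue T)) ∘ₗ ρ.toLinearMap := by
    apply ext_gen
    · intro i
      refine LinearMap.ext fun x => ?_
      show glue T (ρ (R2.e i) x) = ρ (R2.e i) (glue T x)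
      rw [glue_mem T i _ (mem_Vi ρ i x), e_glue]
    · intro a
      refine LinearMap.ext fun x => ?_
      show glue T (ρ (R2.ar a) x) = ρ (R2.ar a) (glue T x)
      rw [glue_mem T (tgt a) _ (ar_mem ρ a x)]
      have h1 : ρ (R2.ar a) (glue T x) = ρ (R2.ar a) (ρ (R2.e (src a)) (glue T x)) := by
        rw [ae, if_pos rfl]
      rw [h1, e_glue]
      have h2 := hT a ⟨ρ (R2.e (src a)) x, mem_Vi ρ _ x⟩
      have h3 : Ar ρ a ⟨ρ (R2.e (src a)) x, mem_Vi ρ _ x⟩ = ⟨ρ (R2.ar a) x, ar_mem ρ a x⟩ := by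
        apply Subtype.ext
        show ρ (R2.ar a) (ρ (R2.e (src a)) x) = ρ (R2.ar a) x
        rw [ae, if_pos rfl]
      rw [h3] at h2
      rw [h2, Ar_coe]
  exact LinearMap.congr_fun h y

theorem schurR (hρ : Schur ρ) : SchurR (RR ρ) := by
  obtain ⟨hn, hs⟩ := hρ
  constructor
  · by_contra hc
    push Not at hc
    obtain ⟨h0, h1, h2, h3, h4⟩ := hc
    have hsub : ∀ i, Subsingleton (Vi ρ i) := by
      intro i
      fin_cases i
      · exact h0
      · exact h1
      · exact h2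
      · exact h3
      · exact h4
    obtain ⟨x, hx⟩ := exists_ne (0 : V)
    apply hx
    rw [← sum_fix ρ x]
    refine Finset.sum_eq_zero fun i _ => ?_
    have := (hsub i).elim ⟨ρ (R2.e i) x, mem_Vi ρ i x⟩ 0
    exact congrArg Subtype.val this
  · intro T0 T1 T2 T3 T4 c0 c1 c2 c3 c4 c5 c6
    let T : ∀ i, Vi ρ i →ₗ[K] Vi ρ i := fun i => match i with
      | 0 => T0
      | 1 => T1
      | 2 => T2
      | 3 => T3
      | 4 => T4
    have hT : ∀ a x, T (tgt a) (Ar ρ a x) = Ar ρ a (T (src a) x) := by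
      intro a
      fin_cases a
      · exact c0
      · exact c1
      · exact c2
      · exact c3
      · exact c4
      · exact c5
      · exact c6
    obtain ⟨c, hc⟩ := hs (glue T) (glue_comm T hT)
    have key : ∀ i (x : Vi ρ i), T i x = c • x := by
      intro i x
      apply Subtype.ext
      have h1 := glue_mem T i x.1 x.2
      rw [hc] at h1
      exact h1.symm
    exact ⟨c, key 0, key 1, key 2, key 3, key 4⟩

/-- bases -/
theorem exists_bases (h : S_ZOB.{u}) [FiniteDimensional K V] (hρ : Schur ρ) :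
    ∃ (n : Fin 5 → ℕ) (b : ∀ i, Module.Basis (Fin (n i)) K (Vi ρ i)),
      ∀ a, ZO (b (src a)) (b (tgt a)) (Ar ρ a) := by
  obtain ⟨n0, n1, n2, n3, n4, b0, b1, b2, b3, b4, z0, z1, z2, z3, z4, z5, z6⟩ :=
    h K (Vi ρ 0) (Vi ρ 1) (Vi ρ 2) (Vi ρ 3) (Vi ρ 4) (RR ρ) (schurR ρ hρ)
  refine ⟨![n0, n1, n2, n3, n4], fun i => match i with
      | 0 => b0
      | 1 => b1
      | 2 => b2
      | 3 => b3
      | 4 => b4, ?_⟩
  intro a
  fin_cases a
  · exact z0
  · exact z1
  · exact z2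
  · exact z3
  · exact z4
  · exact z5
  · exact z6

/-- 0-1-matrices of the generators -/
theorem exists_basis (h : S_ZOB.{u}) [FiniteDimensional K V] (hρ : Schur ρ) {d : ℕ}
    (hd : Module.finrank K V = d) : ∃ B : Module.Basis (Fin d) K V,
      (∀ r i j, B.repr (ρ (R2.e r) (B i)) j = 0 ∨ B.repr (ρ (R2.e r) (B i)) j = 1) ∧
      (∀ a i j, B.repr (ρ (R2.ar a) (B i)) j = 0 ∨ B.repr (ρ (R2.ar a) (B i)) j = 1) := by
  classical
  obtain ⟨n, b, hb⟩ := exists_bases ρ h hρ
  set B := (internal ρ).collectedBasis b with hB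
  have hBc : ∀ p k, B ⟨p, k⟩ = (b p k : V) := by
    intro p k
    rw [hB, DirectSum.IsInternal.collectedBasis_coe]
  have hBm : ∀ p k, B ⟨p, k⟩ ∈ Vi ρ p := by
    intro p k
    rw [hBc]
    exact (b p k).2
  have hcard : Fintype.card (Σ i, Fin (n i)) = d := by
    rw [← hd, Module.finrank_eq_card_basis B]
  let σ : (Σ i, Fin (n i)) ≃ Fin d := Fintype.equivFinOfCardEq hcard
  have e1 : ∀ (r : Fin 5) (i j : Σ i, Fin (n i)),
      B.repr (ρ (R2.e r) (B i)) j = 0 ∨ B.repr (ρ (R2.e r) (B i)) j = 1 := by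
    rintro r ⟨p, k⟩ j
    rw [fix ρ (hBm p k)]
    split_ifs
    · rw [Module.Basis.repr_self, Finsupp.single_apply]
      split_ifs
      · exact Or.inr rfl
      · exact Or.inl rfl
    · rw [map_zero]
      exact Or.inl rfl
  have e2 : ∀ (a : Fin 7) (i j : Σ i, Fin (n i)),
      B.repr (ρ (R2.ar a) (B i)) j = 0 ∨ B.repr (ρ (R2.ar a) (B i)) j = 1 := by
    rintro a ⟨p, k⟩ ⟨q, l⟩
    by_cases hp : p = src a
    · subst hp
      by_cases hq : q = tgt a
      · subst hq
        have h1 := hb a k l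
        rw [hB, DirectSum.IsInternal.collectedBasis_repr_of_mem (internal ρ) b (ar_mem ρ a _)]
        rw [← hB]
        have h2 : (⟨ρ (R2.ar a) (B ⟨src a, k⟩), ar_mem ρ a _⟩ : Vi ρ (tgt a)) =
            Ar ρ a (b (src a) k) := by
          apply Subtype.ext
          show ρ (R2.ar a) (B ⟨src a, k⟩) = ρ (R2.ar a) (b (src a) k : V)
          rw [hBc]
        rw [h2]
        exact h1
      · left
        rw [hB, DirectSum.IsInternal.collectedBasis_repr_of_mem_ne (internal ρ) b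
          (Ne.symm hq) (ar_mem ρ a _)]
    · rw [ar_fix ρ (hBm p k) a hp, map_zero]
      exact Or.inl rfl
  refine ⟨B.reindex σ, fun r i j => ?_, fun a i j => ?_⟩
  · rw [Module.Basis.reindex_apply, Module.Basis.repr_reindex_apply]
    exact e1 r _ _
  · rw [Module.Basis.reindex_apply, Module.Basis.repr_reindex_apply]
    exact e2 a _ _

end module

/-! ### finiteness -/

section finite
variable (K : Type u) [Field K] (d : ℕ)

/-- the homomorphisms with 0-1-matrices of the generators -/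
def Z : Set (Alg K →ₐ[K] Module.End K (Fin d → K)) :=
  {τ | (∀ r i j, τ (R2.e r) (Pi.single i 1) j = 0 ∨ τ (R2.e r) (Pi.single i 1) j = 1) ∧
    ∀ a i j, τ (R2.ar a) (Pi.single i 1) j = 0 ∨ τ (R2.ar a) (Pi.single i 1) j = 1}

/-- the matrices of the generators -/
def mats (τ : Alg K →ₐ[K] Module.End K (Fin d → K)) : (Fin 5 ⊕ Fin 7) × Fin d × Fin d → K :=
  fun p => τ (Sum.elim R2.e R2.ar p.1) (Pi.single p.2.1 1) p.2.2

theorem mats_inj : Function.Injective (mats K d) := by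
  intro τ τ' h
  have h0 : ∀ g : Fin 5 ⊕ Fin 7, τ (Sum.elim R2.e R2.ar g) = τ' (Sum.elim R2.e R2.ar g) := by
    intro g
    refine LinearMap.pi_ext' fun i => ?_
    refine LinearMap.ext_ring ?_
    funext j
    exact congrFun h (g, i, j)
  have h1 : τ.toLinearMap = τ'.toLinearMap :=
    ext_gen (fun i => h0 (Sum.inl i)) (fun a => h0 (Sum.inr a))
  exact AlgHom.toLinearMap_injective h1

theorem Z_finite : (Z K d).Finite := by
  classical
  have h1 : ({f : (Fin 5 ⊕ Fin 7) × Fin d × Fin d → K | ∀ p, f p ∈ ({0, 1} : Set K)}).Finite := by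
    have h2 := Set.Finite.pi' (ι := (Fin 5 ⊕ Fin 7) × Fin d × Fin d) (κ := fun _ => K)
      (t := fun _ => ({0, 1} : Set K)) (fun _ => Set.toFinite _)
    exact h2
  refine Set.Finite.subset (h1.preimage ((mats_inj K d).injOn)) ?_
  intro τ hτ p
  obtain ⟨g, i, j⟩ := p
  rcases g with r | a
  · exact hτ.1 r i j
  · exact hτ.2 a i j

end finite

end FINx

open FINx in
theorem t_FIN (h : S_ZOB.{u}) : S_FIN.{u} := by
  intro K _ d
  have hfin : Finite (Z K d) := (Z_finite K d).to_subtype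
  obtain ⟨m, ⟨σ⟩⟩ := Finite.exists_equiv_fin (Z K d)
  refine ⟨m, fun i => (σ.symm i).1, ?_⟩
  intro V _ _ _ ρ hρ hd
  obtain ⟨B, hB1, hB2⟩ := exists_basis ρ h hρ hd
  set e := B.equivFun with he
  set τ : Alg K →ₐ[K] Module.End K (Fin d → K) := (e.conjAlgEquiv K).toAlgHom.comp ρ with hτ
  have hτa : ∀ (a : Alg K) (v : Fin d → K), τ a v = e (ρ a (e.symm v)) := fun a v => rfl
  have hsing : ∀ i : Fin d, e.symm (Pi.single i 1) = B i := by
    intro i
    rw [LinearEquiv.symm_apply_eq, he]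
    funext j
    rw [Module.Basis.equivFun_apply, Module.Basis.repr_self, Finsupp.single_apply, Pi.single_apply]
    simp only [eq_comm]
  have hZ : τ ∈ Z K d := by
    constructor
    · intro r i j
      rw [hτa, hsing, he, Module.Basis.equivFun_apply]
      exact hB1 r i j
    · intro a i j
      rw [hτa, hsing, he, Module.Basis.equivFun_apply]
      exact hB2 a i j
  refine ⟨σ ⟨τ, hZ⟩, e, fun a v => ?_⟩
  simp only [Equiv.symm_apply_apply]
  rw [hτa, LinearEquiv.symm_apply_apply]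

end WS862
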