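import Pool.Agent.R862.WS.Defs

/-!
# Project WS: finiteness from 0-1-matrices
-/

set_option autoImplicit false

universe u

namespace WS862

/-- the vertices and arrows act by 0-1-matrices in a suitable basis -/
def Nice (K : Type u) [Field K] (V : Type u) [AddCommGroup V] [Module K V] (d : ℕ)
    (ρ : Alg K →ₐ[K] Module.End K V) : Prop :=
  ∃ b : Module.Basis (Fin d) K V, (∀ i : Fin 5, ZO b b (ρ (R2.e i))) ∧
    (∀ a : Fin 7, ZO b b (ρ (R2.ar a)))

lemma alg_decomp (K : Type u) [Field K] (x : Alg K) :
    x = ∑ i : Fin 5, x.1 i • (R2.e i : Alg K) + ∑ a : Fin 7, x.2 a • (R2.ar a : Alg K) := by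
  apply R2.ext'
  · intro j
    have h1 : ∀ (s : Finset (Fin 5)) (f : Fin 5 → Alg K), (∑ i ∈ s, f i).1 j = ∑ i ∈ s, (f i).1 j := by
      intro s f
      classical
      induction s using Finset.induction_on with
      | empty => simp
      | insert a s ha ih => rw [Finset.sum_insert ha, Finset.sum_insert ha, R2.add_1, ih]
    have h2 : ∀ (s : Finset (Fin 7)) (f : Fin 7 → Alg K), (∑ i ∈ s, f i).1 j = ∑ i ∈ s, (f i).1 j := by
      intro s f
      classical
      induction s using Finset.induction_on with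
      | empty => simp
      | insert a s ha ih => rw [Finset.sum_insert ha, Finset.sum_insert ha, R2.add_1, ih]
    rw [R2.add_1, h1, h2]
    simp [R2.e, R2.ar, Pi.single_apply]
  · intro j
    have h1 : ∀ (s : Finset (Fin 5)) (f : Fin 5 → Alg K), (∑ i ∈ s, f i).2 j = ∑ i ∈ s, (f i).2 j := by
      intro s f
      classical
      induction s using Finset.induction_on with
      | empty => simp
      | insert a s ha ih => rw [Finset.sum_insert ha, Finset.sum_insert ha, R2.add_2, ih]
    have h2 : ∀ (s : Finset (Fin 7)) (f : Fin 7 → Alg K), (∑ i ∈ s, f i).2 j = ∑ i ∈ s, (f i).2 j := by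
      intro s f
      classical
      induction s using Finset.induction_on with
      | empty => simp
      | insert a s ha ih => rw [Finset.sum_insert ha, Finset.sum_insert ha, R2.add_2, ih]
    rw [R2.add_2, h1, h2]
    simp [R2.e, R2.ar, Pi.single_apply]

/-- the pattern of a module in a basis -/
noncomputable def pat (K : Type u) [Field K] (V : Type u) [AddCommGroup V] [Module K V] (d : ℕ)
    (ρ : Alg K →ₐ[K] Module.End K V) (b : Module.Basis (Fin d) K V) :
    (Fin 5 → Fin d → Fin d → K) × (Fin 7 → Fin d → Fin d → K) :=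
  (fun i j k => b.repr (ρ (R2.e i) (b j)) k, fun a j k => b.repr (ρ (R2.ar a) (b j)) k)

/-- equal patterns give isomorphic modules -/
lemma iso_of_pat (K : Type u) [Field K] (V W : Type u) [AddCommGroup V] [Module K V]
    [AddCommGroup W] [Module K W] (d : ℕ) (ρ : Alg K →ₐ[K] Module.End K V)
    (σ : Alg K →ₐ[K] Module.End K W) (b : Module.Basis (Fin d) K V) (c : Module.Basis (Fin d) K W)
    (h : pat K V d ρ b = pat K W d σ c) : Iso ρ σ := by
  refine ⟨b.equiv c (Equiv.refl _), ?_⟩
  have key : ∀ (f : Module.End K V) (g : Module.End K W),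
      (∀ j k, b.repr (f (b j)) k = c.repr (g (c j)) k) →
      ∀ v, b.equiv c (Equiv.refl _) (f v) = g (b.equiv c (Equiv.refl _) v) := by
    intro f g hfg
    have : (b.equiv c (Equiv.refl _)).toLinearMap ∘ₗ f = g ∘ₗ (b.equiv c (Equiv.refl _)).toLinearMap := by
      apply b.ext
      intro j
      simp only [LinearMap.comp_apply, LinearEquiv.coe_coe, Module.Basis.equiv_apply,
        Equiv.refl_apply]
      apply c.ext_elem
      intro k
      rw [← hfg j k]
      simp [Module.Basis.equiv]
    intro v
    exact LinearMap.congr_fun this v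
  have he : ∀ i : Fin 5, ∀ v, b.equiv c (Equiv.refl _) (ρ (R2.e i) v) =
      σ (R2.e i) (b.equiv c (Equiv.refl _) v) := by
    intro i
    apply key
    intro j k
    exact congrFun (congrFun (congrFun (congrArg Prod.fst h) i) j) k
  have ha : ∀ i : Fin 7, ∀ v, b.equiv c (Equiv.refl _) (ρ (R2.ar i) v) =
      σ (R2.ar i) (b.equiv c (Equiv.refl _) v) := by
    intro i
    apply key
    intro j k
    exact congrFun (congrFun (congrFun (congrArg Prod.snd h) i) j) k
  intro x v
  rw [alg_decomp K x]
  simp only [map_add, map_sum, map_smul, LinearMap.add_apply, LinearMap.sum_apply,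
    LinearMap.smul_apply, he, ha]

/-- transport of a module to coordinates -/
noncomputable def coord (K : Type u) [Field K] (V : Type u) [AddCommGroup V] [Module K V] (d : ℕ)
    (ρ : Alg K →ₐ[K] Module.End K V) (b : Module.Basis (Fin d) K V) :
    Alg K →ₐ[K] Module.End K (Fin d → K) :=
  (b.equivFun.conjAlgEquiv K).toAlgHom.comp ρ

lemma iso_coord (K : Type u) [Field K] (V : Type u) [AddCommGroup V] [Module K V] (d : ℕ)
    (ρ : Alg K →ₐ[K] Module.End K V) (b : Module.Basis (Fin d) K V) :
    Iso ρ (coord K V d ρ b) := by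
  refine ⟨b.equivFun, fun a v => ?_⟩
  simp [coord, LinearEquiv.conjAlgEquiv_apply]

lemma Iso.symm' {K : Type u} [Field K] {A : Type u} [Ring A] [Algebra K A]
    {V W : Type u} [AddCommGroup V] [Module K V] [AddCommGroup W] [Module K W]
    {ρ : A →ₐ[K] Module.End K V} {σ : A →ₐ[K] Module.End K W} (h : Iso ρ σ) : Iso σ ρ := by
  obtain ⟨e, he⟩ := h
  refine ⟨e.symm, fun a w => ?_⟩
  rw [e.symm_apply_eq, he, e.apply_symm_apply]

lemma Iso.trans' {K : Type u} [Field K] {A : Type u} [Ring A] [Algebra K A]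
    {V W X : Type u} [AddCommGroup V] [Module K V] [AddCommGroup W] [Module K W]
    [AddCommGroup X] [Module K X] {ρ : A →ₐ[K] Module.End K V} {σ : A →ₐ[K] Module.End K W}
    {τ : A →ₐ[K] Module.End K X} (h : Iso ρ σ) (h' : Iso σ τ) : Iso ρ τ := by
  obtain ⟨e, he⟩ := h
  obtain ⟨f, hf⟩ := h'
  exact ⟨e.trans f, fun a v => by simp [he, hf]⟩

theorem fin_of_nice (K : Type u) [Field K]
    (h : ∀ (V : Type u) [AddCommGroup V] [Module K V] [FiniteDimensional K V]
      (ρ : Alg K →ₐ[K] Module.End K V), Schur ρ → Nice K V (Module.finrank K V) ρ) :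
    SchurFinite K (Alg K) := by
  classical
  intro d
  -- patterns with entries 0 and 1
  let B : Type := (Fin 5 → Fin d → Fin d → Bool) × (Fin 7 → Fin d → Fin d → Bool)
  let val : B → (Fin 5 → Fin d → Fin d → K) × (Fin 7 → Fin d → Fin d → K) := fun p =>
    (fun i j k => if p.1 i j k then 1 else 0, fun i j k => if p.2 i j k then 1 else 0)
  -- good patterns
  let G : B → Prop := fun p => ∃ (ρ : Alg K →ₐ[K] Module.End K (Fin d → K))
    (b : Module.Basis (Fin d) K (Fin d → K)), pat K (Fin d → K) d ρ b = val p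
  let S := {p : B // G p}
  let e : Fin (Fintype.card S) ≃ S := (Fintype.equivFin S).symm
  refine ⟨Fintype.card S, fun i => (e i).2.choose, ?_⟩
  intro V _ _ _ ρ hρ hd
  obtain ⟨b0, hb1, hb2⟩ := h V ρ hρ
  subst hd
  -- transport to coordinates
  let p : B := (fun i j k => decide (b0.repr (ρ (R2.e i) (b0 j)) k = 1),
    fun i j k => decide (b0.repr (ρ (R2.ar i) (b0 j)) k = 1))
  have hp : pat K V _ ρ b0 = val p := by
    refine Prod.ext ?_ ?_
    · funext i j k
      simp only [pat, val, p, decide_eq_true_eq]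
      rcases hb1 i j k with h0 | h0 <;> simp [h0]
    · funext i j k
      simp only [pat, val, p, decide_eq_true_eq]
      rcases hb2 i j k with h0 | h0 <;> simp [h0]
  let σ := coord K V (Module.finrank K V) ρ b0
  let c : Module.Basis (Fin (Module.finrank K V)) K (Fin (Module.finrank K V) → K) :=
    b0.map b0.equivFun
  have hσ : pat K _ _ σ c = val p := by
    rw [← hp]
    refine Prod.ext ?_ ?_
    · funext i j k
      simp [pat, σ, c, coord, LinearEquiv.conjAlgEquiv_apply, Finsupp.single_apply]
    · funext i j k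
      simp [pat, σ, c, coord, LinearEquiv.conjAlgEquiv_apply, Finsupp.single_apply]
  have hG : G p := ⟨σ, c, hσ⟩
  refine ⟨e.symm ⟨p, hG⟩, ?_⟩
  have h1 := (e (e.symm ⟨p, hG⟩)).2.choose_spec
  obtain ⟨b', hb'⟩ := h1
  refine iso_of_pat K V _ _ ρ _ b0 b' ?_
  rw [hb', hp]
  simp

end WS862
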