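import Pool.Agent.R862.WS.Defs

/-!
# The four-subspace argument used for the pieces T1 and T2 of project WS
-/

set_option autoImplicit false

universe u

namespace WS862

variable {K : Type u} [Field K]

lemma exists_phi_ne {V : Type u} [AddCommGroup V] [Module K V] {v : V} (hv : v ≠ 0) :
    ∃ φ : V →ₗ[K] K, φ v ≠ 0 := Module.Projective.exists_dual_ne_zero K hv

lemma exists_ne_of_phi {V : Type u} [AddCommGroup V] [Module K V] {φ : V →ₗ[K] K} (hφ : φ ≠ 0) :
    ∃ v : V, φ v ≠ 0 := by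
  by_contra h
  push Not at h
  exact hφ (LinearMap.ext h)

/-- a functional killing a proper subspace -/
lemma exists_phi_kill {V : Type u} [AddCommGroup V] [Module K V] (p : Submodule K V)
    (hp : p ≠ ⊤) : ∃ φ : V →ₗ[K] K, φ ≠ 0 ∧ ∀ x ∈ p, φ x = 0 := by
  obtain ⟨f, hf, hpf⟩ := Submodule.exists_le_ker_of_lt_top p (lt_top_iff_ne_top.2 hp)
  exact ⟨f, hf, fun x hx => hpf hx⟩

lemma fr1 {V : Type u} [AddCommGroup V] [Module K V] (φ : V →ₗ[K] K) (y : V) (k : K)
    (hk : k ≠ 0) (h : ∀ x, φ x • y = k • x) : Module.finrank K V ≤ 1 :=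
  finrank_le_one y (fun w => ⟨k⁻¹ * φ w, by
    rw [mul_smul, h, smul_smul, inv_mul_cancel₀ hk, one_smul]⟩)

/-- The four-subspace argument. -/
theorem four_sub {C : Type u} [AddCommGroup C] [Module K C] (L1 L2 R1 R2 : Submodule K C)
    (hL : L1 ≤ L2) (hR : R1 ≤ R2)
    (H : ∀ (u : C) (φ : C →ₗ[K] K), u ≠ 0 → φ ≠ 0 →
      (u ∈ L1 ∨ ∀ x ∈ L1, φ x = 0) → (u ∈ L2 ∨ ∀ x ∈ L2, φ x = 0) →
      (u ∈ R1 ∨ ∀ x ∈ R1, φ x = 0) → (u ∈ R2 ∨ ∀ x ∈ R2, φ x = 0) → False) :
    IsCompl L2 R2 ∧ (∀ v : C, v ≠ 0 → L2 ≠ ⊥ ∧ R2 ≠ ⊥) := by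
  -- sum
  have hsum : L2 ⊔ R2 = ⊤ := by
    by_contra h
    obtain ⟨φ, hφ, hk⟩ := exists_phi_kill _ h
    obtain ⟨v, hv⟩ := exists_ne_of_phi hφ
    have hv0 : v ≠ 0 := fun h0 => hv (by rw [h0, map_zero])
    exact H v φ hv0 hφ (Or.inr fun x hx => hk x (le_sup_left (a := L2) (b := R2) (hL hx)))
      (Or.inr fun x hx => hk x (le_sup_left (a := L2) (b := R2) hx))
      (Or.inr fun x hx => hk x (le_sup_right (a := L2) (b := R2) (hR hx)))
      (Or.inr fun x hx => hk x (le_sup_right (a := L2) (b := R2) hx))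
  -- L1 ∩ R1 = 0
  have h11 : ∀ x, x ∈ L1 → x ∈ R1 → x = 0 := by
    intro x h1 h2
    by_contra hx
    obtain ⟨φ, hφ⟩ := exists_phi_ne (K := K) hx
    exact H x φ hx (fun h => hφ (by rw [h]; rfl)) (Or.inl h1) (Or.inl (hL h1)) (Or.inl h2)
      (Or.inl (hR h2))
  -- L1 ∩ R2 = 0
  have h12 : ∀ x, x ∈ L1 → x ∈ R2 → x = 0 := by
    intro x h1 h2
    by_contra hx
    by_cases hR1 : R1 = ⊤
    · exact hx (h11 x h1 (hR1 ▸ Submodule.mem_top))
    · obtain ⟨φ, hφ, hk⟩ := exists_phi_kill _ hR1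
      exact H x φ hx hφ (Or.inl h1) (Or.inl (hL h1)) (Or.inr hk) (Or.inl h2)
  have h21 : ∀ x, x ∈ L2 → x ∈ R1 → x = 0 := by
    intro x h1 h2
    by_contra hx
    by_cases hL1 : L1 = ⊤
    · exact hx (h11 x (hL1 ▸ Submodule.mem_top) h2)
    · obtain ⟨φ, hφ, hk⟩ := exists_phi_kill _ hL1
      exact H x φ hx hφ (Or.inr hk) (Or.inl h1) (Or.inl h2) (Or.inl (hR h2))
  have h22 : ∀ x, x ∈ L2 → x ∈ R2 → x = 0 := by
    intro y h1 h2
    by_contra hy
    by_cases hS : L1 ⊔ R1 = ⊤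
    · have hy' : y ∈ L1 ⊔ R1 := hS ▸ Submodule.mem_top
      obtain ⟨l, hl, r, hr, hlr⟩ := Submodule.mem_sup.1 hy'
      have hr0 : r = 0 := by
        apply h21 r _ hr
        have : r = y - l := by rw [← hlr]; abel
        rw [this]
        exact L2.sub_mem h1 (hL hl)
      rw [hr0, add_zero] at hlr
      exact hy (h12 y (hlr ▸ hl) h2)
    · obtain ⟨φ, hφ, hk⟩ := exists_phi_kill _ hS
      exact H y φ hy hφ (Or.inr fun x hx => hk x (le_sup_left (a := L1) (b := R1) hx))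
        (Or.inl h1) (Or.inr fun x hx => hk x (le_sup_right (a := L1) (b := R1) hx)) (Or.inl h2)
  refine ⟨⟨?_, ?_⟩, ?_⟩
  · rw [Submodule.disjoint_def]
    exact h22
  · rw [codisjoint_iff]
    exact hsum
  · intro v hv
    constructor
    · rintro hL2
      have hR2 : R2 = ⊤ := by rw [hL2, bot_sup_eq] at hsum; exact hsum
      have hL1 : ∀ x ∈ L1, x = 0 := fun x hx => by
        have := hL hx
        rw [hL2] at this
        exact (Submodule.mem_bot K).1 this
      have hL2' : ∀ x ∈ L2, x = 0 := fun x hx => by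
        rw [hL2] at hx
        exact (Submodule.mem_bot K).1 hx
      by_cases hR1 : ∃ r ∈ R1, r ≠ 0
      · obtain ⟨r, hr, hr0⟩ := hR1
        obtain ⟨φ, hφ⟩ := exists_phi_ne (K := K) hr0
        exact H r φ hr0 (fun h => hφ (by rw [h]; rfl)) (Or.inr fun x hx => by rw [hL1 x hx, map_zero])
          (Or.inr fun x hx => by rw [hL2' x hx, map_zero]) (Or.inl hr) (Or.inl (hR hr))
      · push Not at hR1
        obtain ⟨φ, hφ⟩ := exists_phi_ne (K := K) hv
        exact H v φ hv (fun h => hφ (by rw [h]; rfl)) (Or.inr fun x hx => by rw [hL1 x hx, map_zero])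
          (Or.inr fun x hx => by rw [hL2' x hx, map_zero])
          (Or.inr fun x hx => by rw [hR1 x hx, map_zero]) (Or.inl (hR2 ▸ Submodule.mem_top))
    · rintro hR2
      have hL2 : L2 = ⊤ := by rw [hR2, sup_bot_eq] at hsum; exact hsum
      have hR1 : ∀ x ∈ R1, x = 0 := fun x hx => by
        have := hR hx
        rw [hR2] at this
        exact (Submodule.mem_bot K).1 this
      have hR2' : ∀ x ∈ R2, x = 0 := fun x hx => by
        rw [hR2] at hx
        exact (Submodule.mem_bot K).1 hx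
      by_cases hL1 : ∃ r ∈ L1, r ≠ 0
      · obtain ⟨r, hr, hr0⟩ := hL1
        obtain ⟨φ, hφ⟩ := exists_phi_ne (K := K) hr0
        exact H r φ hr0 (fun h => hφ (by rw [h]; rfl)) (Or.inl hr) (Or.inl (hL hr))
          (Or.inr fun x hx => by rw [hR1 x hx, map_zero])
          (Or.inr fun x hx => by rw [hR2' x hx, map_zero])
      · push Not at hL1
        obtain ⟨φ, hφ⟩ := exists_phi_ne (K := K) hv
        exact H v φ hv (fun h => hφ (by rw [h]; rfl))
          (Or.inr fun x hx => by rw [hL1 x hx, map_zero]) (Or.inl (hL2 ▸ Submodule.mem_top))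
          (Or.inr fun x hx => by rw [hR1 x hx, map_zero])
          (Or.inr fun x hx => by rw [hR2' x hx, map_zero])

/-- a right inverse -/
lemma exists_rinv {V W : Type u} [AddCommGroup V] [Module K V] [AddCommGroup W] [Module K W]
    (f : V →ₗ[K] W) (hf : Function.Surjective f) : ∃ g : W →ₗ[K] V, ∀ x, f (g x) = x := by
  obtain ⟨g, hg⟩ := LinearMap.exists_rightInverse_of_surjective f (LinearMap.range_eq_top.2 hf)
  exact ⟨g, fun x => by
    have := congrArg (fun h => h x) hg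
    simpa using this⟩

end WS862
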