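import Pool.Agent.R862.WS.Defs

/-! Piece WS-GD: the global dimension is finite. -/

set_option autoImplicit false
set_option linter.unusedSectionVars false

universe u

namespace WS862

namespace GDx

variable {K : Type u} [Field K]

/-- diagonal element -/
def dg (c : Fin 5 → K) : Alg K := (c, 0)

abbrev ee (i : Fin 5) : Alg K := R2.e i
abbrev aa (a : Fin 7) : Alg K := R2.ar a

@[simp] lemma dg_1 (c : Fin 5 → K) (i : Fin 5) : (dg c).1 i = c i := rfl
@[simp] lemma dg_2 (c : Fin 5 → K) (a : Fin 7) : (dg c).2 a = 0 := rfl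
@[simp] lemma e_1 (i j : Fin 5) : (R2.e i : Alg K).1 j = if j = i then 1 else 0 := by
  simp [R2.e, Pi.single_apply]
@[simp] lemma e_2 (i : Fin 5) (a : Fin 7) : (R2.e i : Alg K).2 a = 0 := rfl
@[simp] lemma ar_1 (a : Fin 7) (i : Fin 5) : (R2.ar a : Alg K).1 i = 0 := rfl
@[simp] lemma ar_2 (a b : Fin 7) : (R2.ar a : Alg K).2 b = if b = a then 1 else 0 := by
  simp [R2.ar, Pi.single_apply]

lemma decomp (x : Alg K) : x = dg x.1 + ∑ a, x.2 a • (R2.ar a : Alg K) := by
  rw [Fin.sum_univ_seven]
  apply R2.ext'
  · intro i; simp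
  · intro a; fin_cases a <;> simp

lemma e_sum : ∑ i, (R2.e i : Alg K) = 1 := by
  rw [Fin.sum_univ_five]
  apply R2.ext'
  · intro i; fin_cases i <;> simp
  · intro a; simp

lemma e_mul_ar (i : Fin 5) (a : Fin 7) :
    (R2.e i : Alg K) * R2.ar a = if tgt a = i then R2.ar a else 0 := by
  apply R2.ext'
  · intro j; split_ifs <;> simp
  · intro b
    by_cases h : tgt a = i
    · rw [if_pos h]
      by_cases hb : b = a
      · subst hb; simp [h]
      · simp [hb]
    · rw [if_neg h]
      by_cases hb : b = a
      · subst hb; simp [h]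
      · simp [hb]

lemma ar_mul_e (a : Fin 7) (i : Fin 5) :
    (R2.ar a : Alg K) * R2.e i = if src a = i then R2.ar a else 0 := by
  apply R2.ext'
  · intro j; split_ifs <;> simp
  · intro b
    by_cases h : src a = i
    · rw [if_pos h]
      by_cases hb : b = a
      · subst hb; simp [h]
      · simp [hb]
    · rw [if_neg h]
      by_cases hb : b = a
      · subst hb; simp [h]
      · simp [hb]

lemma x_mul_ar (x : Alg K) (a : Fin 7) :
    x * (R2.ar a : Alg K) = x.1 (tgt a) • R2.ar a := by
  apply R2.ext'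
  · intro j; simp
  · intro b
    by_cases hb : b = a
    · subst hb; simp
    · simp [hb]

lemma ar_mul_dg (a : Fin 7) (c : Fin 5 → K) :
    (R2.ar a : Alg K) * dg c = c (src a) • R2.ar a := by
  apply R2.ext'
  · intro j; simp
  · intro b
    by_cases hb : b = a
    · subst hb; simp
    · simp [hb]

lemma e_mul_dg (i : Fin 5) (c : Fin 5 → K) :
    (R2.e i : Alg K) * dg c = c i • R2.e i := by
  apply R2.ext'
  · intro j
    by_cases hb : j = i
    · subst hb; simp
    · simp [hb]
  · intro b; simp

lemma dg_mul_e (i : Fin 5) (c : Fin 5 → K) :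
    dg c * (R2.e i : Alg K) = c i • R2.e i := by
  apply R2.ext'
  · intro j
    by_cases hb : j = i
    · subst hb; simp
    · simp [hb]
  · intro b; simp

lemma e_mul_e (i j : Fin 5) :
    (R2.e i : Alg K) * R2.e j = if i = j then R2.e i else 0 := by
  apply R2.ext'
  · intro k
    split_ifs with h
    · subst h; simp
    · by_cases hk : k = i
      · subst hk; simp [h]
      · simp [hk]
  · intro b; split_ifs <;> simp

lemma dg_mul (c c' : Fin 5 → K) : dg c * dg c' = dg (fun i => c i * c' i) := by
  apply R2.ext'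
  · intro j; simp
  · intro b; simp

section QM

variable {M : Type u} [AddCommGroup M] [Module K M] [Module (Alg K) M] [IsScalarTower K (Alg K) M]

lemma smul_decomp (x : Alg K) (m : M) :
    x • m = dg x.1 • m + ∑ a, x.2 a • ((R2.ar a : Alg K) • m) := by
  conv_lhs => rw [decomp x]
  rw [add_smul, Finset.sum_smul]
  simp only [smul_assoc]

/-- carrier of the big module -/
def QM (M : Type u) : Type u := M × (Fin 7 → M)

instance : AddCommGroup (QM M) := inferInstanceAs (AddCommGroup (M × (Fin 7 → M)))
instance : Module K (QM M) := inferInstanceAs (Module K (M × (Fin 7 → M)))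

omit [Module K M] [Module (Alg K) M] [IsScalarTower K (Alg K) M] in
@[simp] lemma q_add_1 (p q : QM M) : (p + q).1 = p.1 + q.1 := rfl
omit [Module K M] [Module (Alg K) M] [IsScalarTower K (Alg K) M] in
@[simp] lemma q_add_2 (p q : QM M) (a : Fin 7) : (p + q).2 a = p.2 a + q.2 a := rfl
omit [Module K M] [Module (Alg K) M] [IsScalarTower K (Alg K) M] in
@[simp] lemma q_zero_1 : (0 : QM M).1 = 0 := rfl
omit [Module K M] [Module (Alg K) M] [IsScalarTower K (Alg K) M] in
@[simp] lemma q_zero_2 (a : Fin 7) : (0 : QM M).2 a = 0 := rfl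
omit [Module (Alg K) M] [IsScalarTower K (Alg K) M] in
@[simp] lemma q_ksmul_1 (c : K) (p : QM M) : (c • p).1 = c • p.1 := rfl
omit [Module (Alg K) M] [IsScalarTower K (Alg K) M] in
@[simp] lemma q_ksmul_2 (c : K) (p : QM M) (a : Fin 7) : (c • p).2 a = c • p.2 a := rfl

omit [Module K M] [Module (Alg K) M] [IsScalarTower K (Alg K) M] in
lemma q_ext {p q : QM M} (h1 : p.1 = q.1) (h2 : ∀ a, p.2 a = q.2 a) : p = q :=
  Prod.ext h1 (funext h2)

instance : SMul (Alg K) (QM M) :=
  ⟨fun x q => (dg x.1 • q.1,
    fun a => x.1 (tgt a) • q.2 a + x.2 a • ((R2.e (src a) : Alg K) • q.1))⟩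

omit [IsScalarTower K (Alg K) M] in
@[simp] lemma q_smul_1 (x : Alg K) (p : QM M) : (x • p).1 = dg x.1 • p.1 := rfl
omit [IsScalarTower K (Alg K) M] in
@[simp] lemma q_smul_2 (x : Alg K) (p : QM M) (a : Fin 7) :
    (x • p).2 a = x.1 (tgt a) • p.2 a + x.2 a • ((R2.e (src a) : Alg K) • p.1) := rfl

lemma dg_one : dg (1 : Alg K).1 = 1 := by
  apply R2.ext'
  · intro j; simp
  · intro b; simp

instance : Module (Alg K) (QM M) where
  one_smul q := q_ext (by rw [q_smul_1, dg_one, one_smul]) (fun a => by simp)
  mul_smul x y q := q_ext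
    (by
      rw [q_smul_1, q_smul_1, q_smul_1, ← mul_smul, dg_mul]
      rfl)
    (fun a => by
      rw [q_smul_2, q_smul_2, q_smul_2, q_smul_1, ← mul_smul, e_mul_dg, smul_assoc]
      simp only [R2.mul_1, R2.mul_2, add_smul, smul_add, mul_smul]
      rw [add_assoc])
  smul_zero x := q_ext (by simp) (fun a => by simp)
  smul_add x p q := q_ext (by simp) (fun a => by
    simp only [q_smul_2, q_add_1, q_add_2, smul_add]; abel)
  add_smul x y q := q_ext
    (by
      rw [q_add_1, q_smul_1, q_smul_1, q_smul_1, ← add_smul]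
      congr 1
      apply R2.ext'
      · intro j; simp
      · intro b; simp)
    (fun a => by
      simp only [q_smul_2, q_add_2, R2.add_1, R2.add_2, add_smul]; abel)
  zero_smul q := q_ext
    (by
      rw [q_smul_1]
      have : dg (0 : Alg K).1 = 0 := by
        apply R2.ext'
        · intro j; simp
        · intro b; simp
      rw [this, zero_smul]; rfl)
    (fun a => by simp)

lemma dg_smul (c : K) (x : Alg K) : dg (c • x).1 = c • dg x.1 := by
  apply R2.ext'
  · intro j; simp
  · intro b; simp

instance : IsScalarTower K (Alg K) (QM M) where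
  smul_assoc c x q := q_ext
    (by rw [q_ksmul_1, q_smul_1, q_smul_1, dg_smul, smul_assoc])
    (fun a => by simp [smul_add, mul_smul])

variable (K M) in
/-- the relatively free module -/
def PM : Submodule (Alg K) (QM M) where
  carrier := {q | ∀ a, (R2.e (src a) : Alg K) • q.2 a = q.2 a}
  zero_mem' := fun a => by simp
  add_mem' := fun {p q} hp hq a => by
    have h1 := hp a
    have h2 := hq a
    simp only [q_add_2, smul_add, h1, h2]
  smul_mem' := fun x q hq a => by
    have h1 : (R2.e (src a) : Alg K) • q.2 a = q.2 a := hq a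
    rw [q_smul_2, smul_add, smul_comm, h1, smul_comm _ (x.2 a), ← mul_smul, e_mul_e, if_pos rfl]

variable (K M) in
/-- the embedding -/
def io : M →ₗ[K] PM K M where
  toFun m := ⟨((m, 0) : M × (Fin 7 → M)), fun a => by
    change (R2.e (src a) : Alg K) • (0 : M) = 0
    exact smul_zero _⟩
  map_add' x y := by
    apply Subtype.ext
    exact q_ext rfl (fun a => by change (0:M) = 0 + 0; simp)
  map_smul' c x := by
    apply Subtype.ext
    exact q_ext rfl (fun a => by change (0:M) = c • 0; simp)

lemma io_1 (m : M) : (io K M m : QM M).1 = m := rfl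
lemma io_2 (m : M) (a : Fin 7) : (io K M m : QM M).2 a = 0 := rfl

lemma e_io (i : Fin 5) (m : M) :
    (R2.e i : Alg K) • io K M m = io K M ((R2.e i : Alg K) • m) := by
  apply Subtype.ext
  apply q_ext
  · change dg (R2.e i : Alg K).1 • m = (R2.e i : Alg K) • m
    rfl
  · intro a
    rw [io_2]
    change (R2.e i : Alg K).1 (tgt a) • (0 : M) + (R2.e i : Alg K).2 a • _ = 0
    simp

variable (M) in
/-- projections -/
def pr1 : QM M →+ M where
  toFun q := q.1
  map_zero' := rfl
  map_add' _ _ := rfl

variable (M) in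
/-- projections -/
def pr2 (a : Fin 7) : QM M →+ M where
  toFun q := q.2 a
  map_zero' := rfl
  map_add' _ _ := rfl

section lift

variable {X : Type u} [AddCommGroup X] [Module K X] [Module (Alg K) X] [IsScalarTower K (Alg K) X]

/-- the universal property -/
def lft (g : M →ₗ[K] X) (hg : ∀ (c : Fin 5 → K) (m : M), g (dg c • m) = dg c • g m) :
    PM K M →ₗ[Alg K] X where
  toFun p := g (p : QM M).1 + ∑ a, (R2.ar a : Alg K) • g ((p : QM M).2 a)
  map_add' p q := by
    simp only [Submodule.coe_add, q_add_1, q_add_2, map_add, smul_add, Finset.sum_add_distrib]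
    abel
  map_smul' x p := by
    have he : ∀ (i : Fin 5) (m : M), g ((R2.e i : Alg K) • m) = (R2.e i : Alg K) • g m :=
      fun i m => hg (Pi.single i 1) m
    simp only [Submodule.coe_smul, q_smul_1, q_smul_2, map_add, map_smul, hg, he, smul_add,
      Finset.sum_add_distrib, RingHom.id_apply]
    rw [smul_decomp x (g (p : QM M).1), Finset.smul_sum]
    have h1 : ∀ a : Fin 7, (R2.ar a : Alg K) • (x.1 (tgt a) • g ((p : QM M).2 a)) =
        x • (R2.ar a : Alg K) • g ((p : QM M).2 a) := by
      intro a
      rw [← mul_smul, x_mul_ar, smul_assoc, smul_comm]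
    have h2 : ∀ a : Fin 7, (R2.ar a : Alg K) • (x.2 a • ((R2.e (src a) : Alg K) •
        g (p : QM M).1)) = x.2 a • ((R2.ar a : Alg K) • g (p : QM M).1) := by
      intro a
      rw [smul_comm, ← mul_smul, ar_mul_e, if_pos rfl]
    simp only [h1, h2]
    abel

lemma lft_apply (g : M →ₗ[K] X) (hg : ∀ (c : Fin 5 → K) (m : M), g (dg c • m) = dg c • g m)
    (p : PM K M) : lft g hg p = g (p : QM M).1 + ∑ a, (R2.ar a : Alg K) • g ((p : QM M).2 a) := rfl

lemma lft_io (g : M →ₗ[K] X) (hg : ∀ (c : Fin 5 → K) (m : M), g (dg c • m) = dg c • g m)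
    (m : M) : lft g hg (io K M m) = g m := by
  rw [lft_apply, io_1]
  simp only [io_2, map_zero, smul_zero, Finset.sum_const_zero, add_zero]

end lift

/-- multiplication -/
def ls (x : Alg K) : M →ₗ[K] M where
  toFun m := x • m
  map_add' := smul_add x
  map_smul' c m := smul_comm x c m

lemma PM_decomp (p : PM K M) :
    p = io K M (p : QM M).1 + ∑ a, (R2.ar a : Alg K) • io K M ((p : QM M).2 a) := by
  apply Subtype.ext
  rw [Submodule.coe_add, Submodule.coe_sum]
  have h1 : (∑ a : Fin 7, (((R2.ar a : Alg K) • io K M ((p : QM M).2 a) : PM K M) : QM M)).1 =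
      ∑ a : Fin 7, pr1 M (((R2.ar a : Alg K) • io K M ((p : QM M).2 a) : PM K M) : QM M) :=
    map_sum (pr1 M) (fun a : Fin 7 =>
      (((R2.ar a : Alg K) • io K M ((p : QM M).2 a) : PM K M) : QM M)) Finset.univ
  have h2 : ∀ b, (∑ a : Fin 7,
      (((R2.ar a : Alg K) • io K M ((p : QM M).2 a) : PM K M) : QM M)).2 b =
      ∑ a : Fin 7, pr2 M b (((R2.ar a : Alg K) • io K M ((p : QM M).2 a) : PM K M) : QM M) :=
    fun b => map_sum (pr2 M b) (fun a : Fin 7 =>
      (((R2.ar a : Alg K) • io K M ((p : QM M).2 a) : PM K M) : QM M)) Finset.univ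
  have hz : dg (fun _ => (0 : K)) = 0 := by
    apply R2.ext'
    · intro j; simp
    · intro b; simp
  apply q_ext
  · rw [q_add_1, io_1, h1]
    have : ∀ a : Fin 7, (pr1 M) (((R2.ar a : Alg K) • io K M ((p : QM M).2 a) : PM K M) : QM M)
        = 0 := by
      intro a
      change dg (fun _ => (0 : K)) • _ = (0 : M)
      rw [hz, zero_smul]
    simp only [this, Finset.sum_const_zero, add_zero]
  · intro b
    rw [q_add_2, io_2, zero_add, h2]
    have : ∀ a : Fin 7, (pr2 M b) (((R2.ar a : Alg K) • io K M ((p : QM M).2 a) : PM K M) : QM M)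
        = if b = a then (p : QM M).2 a else 0 := by
      intro a
      change (R2.ar a : Alg K).1 (tgt b) • (0 : M) + (R2.ar a : Alg K).2 b •
        ((R2.e (src b) : Alg K) • (p : QM M).2 a) = _
      by_cases h : b = a
      · subst h
        have := p.2 b
        simp only [ar_1, ar_2, if_true, one_smul, smul_zero, zero_add]
        exact this
      · simp [h]
    simp only [this]
    rw [Finset.sum_ite_eq]
    simp

lemma PM_proj : Module.Projective (Alg K) (PM K M) := by
  apply Module.Projective.of_lifting_property''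
  intro f hf
  obtain ⟨σ, hσ⟩ := (f.restrictScalars K).exists_rightInverse_of_surjective
    (LinearMap.range_eq_top.mpr hf)
  have hσ' : ∀ p, f (σ p) = p := fun p => LinearMap.congr_fun hσ p
  let g : M →ₗ[K] (PM K M →₀ Alg K) :=
    ∑ i : Fin 5, (ls (R2.e i)) ∘ₗ σ ∘ₗ (io K M) ∘ₗ (ls (R2.e i))
  have hgm : ∀ m, g m = ∑ i : Fin 5, (R2.e i : Alg K) • σ (io K M ((R2.e i : Alg K) • m)) := by
    intro m
    simp only [g, LinearMap.sum_apply]
    rfl
  have hg : ∀ (c : Fin 5 → K) (m : M), g (dg c • m) = dg c • g m := by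
    intro c m
    rw [hgm, hgm, Finset.smul_sum]
    apply Finset.sum_congr rfl
    intro i _
    rw [← mul_smul, e_mul_dg, smul_assoc, map_smul, map_smul, ← mul_smul, dg_mul_e, smul_assoc,
      smul_comm]
  refine ⟨lft g hg, ?_⟩
  have hfg : ∀ m, f (g m) = io K M m := by
    intro m
    rw [hgm, map_sum]
    have : ∀ i : Fin 5, f ((R2.e i : Alg K) • σ (io K M ((R2.e i : Alg K) • m))) =
        io K M ((R2.e i : Alg K) • m) := by
      intro i
      rw [map_smul, hσ', e_io, ← mul_smul, e_mul_e, if_pos rfl]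
    simp only [this]
    rw [← map_sum, ← Finset.sum_smul, e_sum, one_smul]
  apply LinearMap.ext
  intro p
  rw [LinearMap.comp_apply, lft_apply, map_add, map_sum, LinearMap.id_apply]
  simp only [map_smul, hfg]
  exact (PM_decomp p).symm

variable (K M) in
/-- the augmentation -/
def aug : PM K M →ₗ[Alg K] M := lft LinearMap.id (fun _ _ => rfl)

lemma aug_surj : Function.Surjective (aug K M) := by
  intro m
  exact ⟨io K M m, lft_io _ _ m⟩

end QM

/-- support -/
def Sup (K : Type u) [Field K] (i : ℕ) (M : Type u) [AddCommGroup M] [Module (Alg K) M] : Prop :=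
  ∀ j : Fin 5, (j : ℕ) < i → ∀ m : M, (R2.e j : Alg K) • m = 0

lemma sup_ker {M : Type u} [AddCommGroup M] [Module K M] [Module (Alg K) M]
    [IsScalarTower K (Alg K) M] {i : ℕ} (h : Sup K i M) :
    Sup K (i + 1) (LinearMap.ker (aug K M)) := by
  intro j hj p
  have hlt : ∀ a : Fin 7, (src a : ℕ) < (tgt a : ℕ) := by decide
  have hw : ∀ a : Fin 7, tgt a = j → ((p : PM K M) : QM M).2 a = 0 := by
    intro a ha
    have h1 := (p : PM K M).2 a
    have h2 := hlt a
    rw [ha] at h2
    rw [← h1]
    exact h (src a) (by omega) _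
  have hk : ((p : PM K M) : QM M).1 + ∑ a, (R2.ar a : Alg K) • ((p : PM K M) : QM M).2 a = 0 :=
    p.2
  apply Subtype.ext
  apply Subtype.ext
  apply q_ext
  · change (R2.e j : Alg K) • ((p : PM K M) : QM M).1 = 0
    have h3 : ((p : PM K M) : QM M).1 =
        - ∑ a, (R2.ar a : Alg K) • ((p : PM K M) : QM M).2 a := eq_neg_of_add_eq_zero_left hk
    rw [h3, smul_neg, Finset.smul_sum, Finset.sum_eq_zero, neg_zero]
    intro a _
    rw [← mul_smul, e_mul_ar]
    split_ifs with h4
    · rw [hw a h4, smul_zero]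
    · rw [zero_smul]
  · intro a
    change (R2.e j : Alg K).1 (tgt a) • ((p : PM K M) : QM M).2 a + (0 : K) • _ = 0
    rw [e_1, zero_smul, add_zero]
    split_ifs with h4
    · rw [hw a h4, smul_zero]
    · rw [zero_smul]

open CategoryTheory

lemma main (K : Type u) [Field K] (n : ℕ) (hn : n ≤ 5) :
    ∀ M : ModuleCat.{u} (Alg K), Sup K (5 - n) M → HasProjectiveDimensionLT M n := by
  induction n with
  | zero =>
    intro M hM
    apply Limits.IsZero.hasProjectiveDimensionLT_zero
    have : Subsingleton M := by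
      apply subsingleton_of_forall_eq 0
      intro m
      have h1 : (1 : Alg K) • m = 0 := by
        rw [← e_sum, Finset.sum_smul, Finset.sum_eq_zero]
        intro i _
        exact hM i (by omega) m
      rwa [one_smul] at h1
    exact ModuleCat.isZero_of_subsingleton M
  | succ n ih =>
    intro M hM
    let _ : Module K M := Module.compHom M (algebraMap K (Alg K))
    have : IsScalarTower K (Alg K) M := ⟨fun c x m => by
      rw [Algebra.smul_def, mul_smul]; rfl⟩
    have hS := LinearMap.shortExact_shortComplexKer (aug_surj (K := K) (M := M))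
    have h1 : HasProjectiveDimensionLT (aug K M).shortComplexKer.X₁ n := by
      apply ih (by omega)
      have := sup_ker hM
      have h5 : 5 - (n + 1) + 1 = 5 - n := by omega
      rw [h5] at this
      exact this
    have h2 : Projective (aug K M).shortComplexKer.X₂ := by
      have : Module.Projective (Alg K) (PM K M) := PM_proj
      exact (IsProjective.iff_projective (PM K M)).mp this
    have h3 : HasProjectiveDimensionLT (aug K M).shortComplexKer.X₂ (n + 1) :=
      hasProjectiveDimensionLT_of_ge _ 1 (n + 1) (by omega)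
    exact hS.hasProjectiveDimensionLT_X₃ n h1 h3

end GDx

theorem t_GD : S_GD.{u} := by
  intro K _
  exact ⟨5, fun M => GDx.main K 5 le_rfl M (fun j hj => by omega)⟩

end WS862
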