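import Pool.Agent.R862.WS.Defs

/-!
# Project WS: normalisation of maps between spaces of dimension at most one
-/

set_option autoImplicit false

universe u

namespace WS862

lemma fin_basis_cases {K V : Type u} [Field K] [AddCommGroup V] [Module K V]
    [FiniteDimensional K V] (h : Module.finrank K V ≤ 1) :
    (∀ x : V, x = 0) ∨ ∃ v : V, v ≠ 0 ∧ ∀ x : V, ∃ c : K, x = c • v := by
  rcases Nat.le_one_iff_eq_zero_or_eq_one.1 h with h0 | h1
  · left
    have := Module.finrank_zero_iff.1 h0
    intro x
    exact Subsingleton.elim _ _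
  · right
    obtain ⟨v, hv, hs⟩ := finrank_eq_one_iff'.1 h1
    refine ⟨v, hv, fun x => ?_⟩
    obtain ⟨c, hc⟩ := hs x
    exact ⟨c, hc.symm⟩

/-- the basis of a line given by a non-zero vector -/
lemma line_basis {K V : Type u} [Field K] [AddCommGroup V] [Module K V]
    (v : V) (hv : v ≠ 0) (hs : ∀ x : V, ∃ c : K, x = c • v) :
    ∃ b : Module.Basis (Fin 1) K V, b 0 = v := by
  have hli : LinearIndependent K (fun _ : Fin 1 => v) := by
    rw [linearIndependent_unique_iff]
    exact hv
  refine ⟨Module.Basis.mk hli ?_, ?_⟩
  · intro x _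
    obtain ⟨c, rfl⟩ := hs x
    exact Submodule.smul_mem _ _ (Submodule.subset_span ⟨0, rfl⟩)
  · simp

lemma empty_basis {K V : Type u} [Field K] [AddCommGroup V] [Module K V]
    (h : ∀ x : V, x = 0) : ∃ _b : Module.Basis (Fin 0) K V, True := by
  have : Subsingleton V := ⟨fun x y => by rw [h x, h y]⟩
  exact ⟨Module.Basis.empty V, trivial⟩

theorem t_N1 : S_N1.{u} := by
  intro K _ V W _ _ _ _ _ _ n c f hV hW
  rcases fin_basis_cases (K := K) hV with h0 | ⟨v, hv, hs⟩
  · obtain ⟨b, -⟩ := empty_basis (K := K) h0
    exact ⟨0, b, fun i => i.elim0⟩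
  · by_cases hf : f v = 0
    · obtain ⟨b, hb⟩ := line_basis v hv hs
      refine ⟨1, b, fun i j => ?_⟩
      have hi : i = 0 := Subsingleton.elim _ _
      left
      rw [hi, hb, hf, map_zero]
      rfl
    · -- `f v` is a nonzero vector of the line `W`
      rcases fin_basis_cases (K := K) hW with w0 | ⟨w, hw, hws⟩
      · exact absurd (w0 _) hf
      · -- `n = 1`
        have hn : n = 1 := by
          have h1 := Module.finrank_eq_card_basis c
          rw [Fintype.card_fin] at h1
          have h2 : Module.finrank K W ≠ 0 := by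
            intro h
            have := Module.finrank_zero_iff.1 h
            exact hf (Subsingleton.elim _ _)
          omega
        subst hn
        obtain ⟨k, hk⟩ : ∃ k : K, f v = k • c 0 := by
          refine ⟨c.repr (f v) 0, ?_⟩
          have := c.sum_repr (f v)
          rw [Fin.sum_univ_one] at this
          exact this.symm
        have hk0 : k ≠ 0 := by
          rintro rfl
          rw [zero_smul] at hk
          exact hf hk
        have hv' : k⁻¹ • v ≠ 0 := smul_ne_zero (inv_ne_zero hk0) hv
        obtain ⟨b, hb⟩ := line_basis (k⁻¹ • v) hv' (by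
          intro x
          obtain ⟨a, rfl⟩ := hs x
          exact ⟨a * k, by rw [smul_smul, mul_assoc, mul_inv_cancel₀ hk0, mul_one]⟩)
        refine ⟨1, b, fun i j => ?_⟩
        have hi : i = 0 := Subsingleton.elim _ _
        have hj : j = 0 := Subsingleton.elim _ _
        right
        rw [hi, hj, hb, map_smul, hk, smul_smul, inv_mul_cancel₀ hk0, one_smul]
        simp

theorem t_N2 : S_N2.{u} := by
  intro K _ V W _ _ _ _ _ _ n b f hV hW
  rcases fin_basis_cases (K := K) hW with h0 | ⟨w, hw, hs⟩
  · obtain ⟨c, -⟩ := empty_basis (K := K) h0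
    exact ⟨0, c, fun i j => j.elim0⟩
  · have hn : n ≤ 1 := by
      have h1 := Module.finrank_eq_card_basis b
      rw [Fintype.card_fin] at h1
      omega
    interval_cases n
    · obtain ⟨c, -⟩ := line_basis w hw hs
      exact ⟨1, c, fun i => i.elim0⟩
    · by_cases hf : f (b 0) = 0
      · obtain ⟨c, -⟩ := line_basis w hw hs
        refine ⟨1, c, fun i j => ?_⟩
        have hi : i = 0 := Subsingleton.elim _ _
        left
        rw [hi, hf, map_zero]
        rfl
      · obtain ⟨k, hk⟩ := hs (f (b 0))
        have hk0 : k ≠ 0 := by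
          rintro rfl
          rw [zero_smul] at hk
          exact hf hk
        obtain ⟨c, hc⟩ := line_basis (f (b 0)) hf (by
          intro x
          obtain ⟨a, rfl⟩ := hs x
          exact ⟨a * k⁻¹, by rw [hk, smul_smul, mul_assoc, inv_mul_cancel₀ hk0, mul_one]⟩)
        refine ⟨1, c, fun i j => ?_⟩
        have hi : i = 0 := Subsingleton.elim _ _
        have hj : j = 0 := Subsingleton.elim _ _
        right
        rw [hi, hj, ← hc]
        simp

end WS862
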