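import Pool.Agent.R862.WS.FourSub

/-!
# Piece T1 of project WS
-/

set_option autoImplicit false

universe u

namespace WS862

/-- extension of a rank one endomorphism of the centre to a branch `E ←a S b→ C` -/
lemma t1_ext {K : Type u} [Field K] {E S C : Type u} [AddCommGroup E] [Module K E]
    [AddCommGroup S] [Module K S] [AddCommGroup C] [Module K C] (a : S →ₗ[K] E) (b : S →ₗ[K] C)
    (ha : Function.Surjective a) (_hb : Function.Injective b) (u : C) (φ : C →ₗ[K] K)
    (h1 : u ∈ (LinearMap.ker a).map b ∨ ∀ x ∈ (LinearMap.ker a).map b, φ x = 0)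
    (h2 : u ∈ LinearMap.range b ∨ ∀ x ∈ LinearMap.range b, φ x = 0) :
    ∃ (fE : E →ₗ[K] K) (yE : E) (fS : S →ₗ[K] K) (yS : S),
      (∀ x : S, fE (a x) • yE = fS x • a yS) ∧ (∀ x : S, φ (b x) • u = fS x • b yS) := by
  rcases h2 with ⟨x0, hx0⟩ | h2
  · rcases h1 with ⟨x1, hx1, hx1'⟩ | h1
    · refine ⟨0, 0, φ ∘ₗ b, x1, fun x => ?_, fun x => ?_⟩
      · have : a x1 = 0 := hx1
        rw [this]; simp
      · rw [hx1']; rfl
    · obtain ⟨g, hg⟩ := exists_rinv a ha
      refine ⟨φ ∘ₗ b ∘ₗ g, a x0, φ ∘ₗ b, x0, fun x => ?_, fun x => ?_⟩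
      · have h3 : g (a x) - x ∈ LinearMap.ker a := by
          rw [LinearMap.mem_ker, map_sub, hg, sub_self]
        have h4 := h1 (b (g (a x) - x)) ⟨_, h3, rfl⟩
        rw [map_sub, map_sub, sub_eq_zero] at h4
        simp only [LinearMap.comp_apply]
        rw [h4]
      · rw [hx0]; rfl
  · refine ⟨0, 0, 0, 0, fun x => by simp, fun x => ?_⟩
    rw [h2 _ ⟨x, rfl⟩]; simp

theorem t_T1 (h1 : S_N1.{u}) (h2 : S_N2.{u}) : S_T1.{u} := by
  intro K _ E S C T F _ _ _ _ _ _ _ _ _ _ _ _ _ _ _ a b c d hs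
  by_cases hd : Module.finrank K E ≤ 1 ∧ Module.finrank K S ≤ 1 ∧ Module.finrank K C ≤ 1 ∧
      Module.finrank K T ≤ 1 ∧ Module.finrank K F ≤ 1
  · obtain ⟨dE, dS, dC, dT, dF⟩ := hd
    obtain ⟨n2, bS, hbS⟩ := h1 K S C _ (Module.finBasis K C) b dS dC
    obtain ⟨n4, bT, hbT⟩ := h1 K T C _ (Module.finBasis K C) c dT dC
    obtain ⟨n1, bE, hbE⟩ := h2 K S E _ bS a dS dE
    obtain ⟨n5, bF, hbF⟩ := h2 K T F _ bT d dT dF
    exact ⟨n1, n2, _, n4, n5, bE, bS, Module.finBasis K C, bT, bF, hbE, hbS, hbT, hbF⟩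
  exfalso
  -- rank one principle
  have P : ∀ (fE : E →ₗ[K] K) (yE : E) (fS : S →ₗ[K] K) (yS : S) (fC : C →ₗ[K] K) (yC : C)
      (fT : T →ₗ[K] K) (yT : T) (fF : F →ₗ[K] K) (yF : F),
      (∀ x : S, fE (a x) • yE = fS x • a yS) → (∀ x : S, fC (b x) • yC = fS x • b yS) →
      (∀ x : T, fC (c x) • yC = fT x • c yT) → (∀ x : T, fF (d x) • yF = fT x • d yT) →
      (∀ x, fE x • yE = 0) ∧ (∀ x, fS x • yS = 0) ∧ (∀ x, fC x • yC = 0) ∧
        (∀ x, fT x • yT = 0) ∧ (∀ x, fF x • yF = 0) := by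
    intro fE yE fS yS fC yC fT yT fF yF e1 e2 e3 e4
    obtain ⟨k, k1, k2, k3, k4, k5⟩ := hs (fE.smulRight yE) (fS.smulRight yS) (fC.smulRight yC)
      (fT.smulRight yT) (fF.smulRight yF)
      (fun x => by simpa using e1 x) (fun x => by simpa using e2 x) (fun x => by simpa using e3 x)
      (fun x => by simpa using e4 x)
    simp only [LinearMap.smulRight_apply] at k1 k2 k3 k4 k5
    by_cases hk : k = 0
    · subst hk
      simp only [zero_smul] at k1 k2 k3 k4 k5
      exact ⟨k1, k2, k3, k4, k5⟩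
    · exact absurd ⟨fr1 _ _ k hk k1, fr1 _ _ k hk k2, fr1 _ _ k hk k3, fr1 _ _ k hk k4,
        fr1 _ _ k hk k5⟩ hd
  -- surjectivity
  have ha : Function.Surjective a := by
    by_contra h
    obtain ⟨φ, hφ, hk⟩ := exists_phi_kill (LinearMap.range a)
      (fun h' => h (LinearMap.range_eq_top.1 h'))
    obtain ⟨y, hy⟩ := exists_ne_of_phi hφ
    have h3 := (P φ y 0 0 0 0 0 0 0 0 (fun x => by rw [hk _ ⟨x, rfl⟩]; simp) (fun x => by simp)
      (fun x => by simp) (fun x => by simp)).1 y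
    rcases smul_eq_zero.1 h3 with h4 | h4
    · exact hy h4
    · exact hy (by rw [h4, map_zero])
  have hd' : Function.Surjective d := by
    by_contra h
    obtain ⟨φ, hφ, hk⟩ := exists_phi_kill (LinearMap.range d)
      (fun h' => h (LinearMap.range_eq_top.1 h'))
    obtain ⟨y, hy⟩ := exists_ne_of_phi hφ
    have h3 := (P 0 0 0 0 0 0 0 0 φ y (fun x => by simp) (fun x => by simp)
      (fun x => by simp) (fun x => by rw [hk _ ⟨x, rfl⟩]; simp)).2.2.2.2 y
    rcases smul_eq_zero.1 h3 with h4 | h4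
    · exact hy h4
    · exact hy (by rw [h4, map_zero])
  -- injectivity
  have hb : Function.Injective b := by
    rw [injective_iff_map_eq_zero]
    intro x hx
    by_contra hx0
    by_cases hax : a x = 0
    · obtain ⟨φ, hφ⟩ := exists_phi_ne (K := K) hx0
      have h3 := (P 0 0 φ x 0 0 0 0 0 0 (fun y => by rw [hax]; simp) (fun y => by rw [hx]; simp)
        (fun y => by simp) (fun y => by simp)).2.1 x
      rcases smul_eq_zero.1 h3 with h4 | h4
      · exact hφ h4
      · exact hx0 h4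
    · obtain ⟨ψ, hψ⟩ := exists_phi_ne (K := K) hax
      have h3 := (P ψ (a x) (ψ ∘ₗ a) x 0 0 0 0 0 0 (fun y => rfl) (fun y => by rw [hx]; simp)
        (fun y => by simp) (fun y => by simp)).1 (a x)
      rcases smul_eq_zero.1 h3 with h4 | h4
      · exact hψ h4
      · exact hax h4
  have hc : Function.Injective c := by
    rw [injective_iff_map_eq_zero]
    intro x hx
    by_contra hx0
    by_cases hdx : d x = 0
    · obtain ⟨φ, hφ⟩ := exists_phi_ne (K := K) hx0
      have h3 := (P 0 0 0 0 0 0 φ x 0 0 (fun y => by simp) (fun y => by simp)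
        (fun y => by rw [hx]; simp) (fun y => by rw [hdx]; simp)).2.2.2.1 x
      rcases smul_eq_zero.1 h3 with h4 | h4
      · exact hφ h4
      · exact hx0 h4
    · obtain ⟨ψ, hψ⟩ := exists_phi_ne (K := K) hdx
      have h3 := (P 0 0 0 0 0 0 (ψ ∘ₗ d) x ψ (d x) (fun y => by simp) (fun y => by simp)
        (fun y => by rw [hx]; simp) (fun y => rfl)).2.2.2.2 (d x)
      rcases smul_eq_zero.1 h3 with h4 | h4
      · exact hψ h4
      · exact hdx h4
  -- the four subspaces
  obtain ⟨hcompl, hne⟩ := four_sub ((LinearMap.ker a).map b) (LinearMap.range b)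
    ((LinearMap.ker d).map c) (LinearMap.range c) LinearMap.map_le_range LinearMap.map_le_range
    (by
      intro u φ hu hφ c1 c2 c3 c4
      obtain ⟨fE, yE, fS, yS, e1, e2⟩ := t1_ext a b ha hb u φ c1 c2
      obtain ⟨fF, yF, fT, yT, e3, e4⟩ := t1_ext d c hd' hc u φ c3 c4
      obtain ⟨y, hy⟩ := exists_ne_of_phi hφ
      have h3 := (P fE yE fS yS φ u fT yT fF yF e1 e2 e4 e3).2.2.1 y
      rcases smul_eq_zero.1 h3 with h4 | h4
      · exact hy h4
      · exact hu h4)
  by_cases hC : ∃ v : C, v ≠ 0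
  · obtain ⟨v, hv⟩ := hC
    obtain ⟨hL, hR⟩ := hne v hv
    obtain ⟨l, hl, hl0⟩ := Submodule.exists_mem_ne_zero_of_ne_bot hL
    obtain ⟨r, hr, hr0⟩ := Submodule.exists_mem_ne_zero_of_ne_bot hR
    obtain ⟨k, -, -, k3, -, -⟩ := hs LinearMap.id LinearMap.id
      ((LinearMap.range b).projection (LinearMap.range c) hcompl) 0 0 (fun x => rfl)
      (fun x => by
        rw [Submodule.projection_apply_of_mem_left hcompl ⟨x, rfl⟩]; rfl)
      (fun x => by
        rw [Submodule.projection_apply_of_mem_right hcompl ⟨x, rfl⟩]; simp)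
      (fun x => by simp)
    have e1 := k3 l
    rw [Submodule.projection_apply_of_mem_left hcompl hl] at e1
    have e2 := k3 r
    rw [Submodule.projection_apply_of_mem_right hcompl hr] at e2
    rcases smul_eq_zero.1 e2.symm with h4 | h4
    · rw [h4, zero_smul] at e1
      exact hl0 e1
    · exact hr0 h4
  · push Not at hC
    have : Subsingleton C := ⟨fun x y => by rw [hC x, hC y]⟩
    have : Subsingleton S := hb.subsingleton
    have : Subsingleton T := hc.subsingleton
    have : Subsingleton E := ha.subsingleton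
    have : Subsingleton F := hd'.subsingleton
    apply hd
    refine ⟨?_, ?_, ?_, ?_, ?_⟩ <;> rw [Module.finrank_zero_of_subsingleton] <;> exact zero_le_one

end WS862
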