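import Pool.Agent.R862.WS.FourSub

/-!
# Piece T2 of project WS
-/

set_option autoImplicit false

universe u

namespace WS862

/-- extension of a rank one endomorphism of the centre to a branch `S a→ E ←b C` -/
lemma t2_ext {K : Type u} [Field K] {E S C : Type u} [AddCommGroup E] [Module K E]
    [AddCommGroup S] [Module K S] [AddCommGroup C] [Module K C] (a : S →ₗ[K] E) (b : C →ₗ[K] E)
    (hb : Function.Surjective b) (u : C) (φ : C →ₗ[K] K)
    (h1 : u ∈ LinearMap.ker b ∨ ∀ x ∈ LinearMap.ker b, φ x = 0)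
    (h2 : u ∈ (LinearMap.range a).comap b ∨ ∀ x ∈ (LinearMap.range a).comap b, φ x = 0) :
    ∃ (fE : E →ₗ[K] K) (yE : E) (fS : S →ₗ[K] K) (yS : S),
      (∀ x : S, fE (a x) • yE = fS x • a yS) ∧ (∀ x : C, fE (b x) • yE = φ x • b u) := by
  rcases h1 with h1 | h1
  · refine ⟨0, 0, 0, 0, fun x => by simp, fun x => ?_⟩
    rw [LinearMap.mem_ker.1 h1]; simp
  · obtain ⟨g, hg⟩ := exists_rinv b hb
    have hψ : ∀ x, (φ ∘ₗ g) (b x) = φ x := by
      intro x
      have h3 : g (b x) - x ∈ LinearMap.ker b := by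
        rw [LinearMap.mem_ker, map_sub, hg, sub_self]
      have h4 := h1 _ h3
      rw [map_sub, sub_eq_zero] at h4
      exact h4
    rcases h2 with ⟨x0, hx0⟩ | h2
    · refine ⟨φ ∘ₗ g, b u, (φ ∘ₗ g) ∘ₗ a, x0, fun x => ?_, fun x => ?_⟩
      · rw [hx0]; rfl
      · rw [hψ]
    · refine ⟨φ ∘ₗ g, b u, 0, 0, fun x => ?_, fun x => ?_⟩
      · have h5 : (φ ∘ₗ g) (a x) = 0 := by
          obtain ⟨z, hz⟩ := hb (a x)
          rw [← hz, hψ]
          exact h2 z (by
            change b z ∈ LinearMap.range a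
            rw [hz]
            exact ⟨x, rfl⟩)
        rw [h5]; simp
      · rw [hψ]

theorem t_T2 (h1 : S_N1.{u}) (h2 : S_N2.{u}) : S_T2.{u} := by
  intro K _ S E C F T _ _ _ _ _ _ _ _ _ _ _ _ _ _ _ a b c d hs
  by_cases hd : Module.finrank K S ≤ 1 ∧ Module.finrank K E ≤ 1 ∧ Module.finrank K C ≤ 1 ∧
      Module.finrank K F ≤ 1 ∧ Module.finrank K T ≤ 1
  · obtain ⟨dS, dE, dC, dF, dT⟩ := hd
    obtain ⟨n2, bE, hbE⟩ := h2 K C E _ (Module.finBasis K C) b dC dE
    obtain ⟨n4, bF, hbF⟩ := h2 K C F _ (Module.finBasis K C) c dC dF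
    obtain ⟨n1, bS, hbS⟩ := h1 K S E _ bE a dS dE
    obtain ⟨n5, bT, hbT⟩ := h1 K T F _ bF d dT dF
    exact ⟨n1, n2, _, n4, n5, bS, bE, Module.finBasis K C, bF, bT, hbS, hbE, hbF, hbT⟩
  exfalso
  -- rank one principle
  have P : ∀ (fS : S →ₗ[K] K) (yS : S) (fE : E →ₗ[K] K) (yE : E) (fC : C →ₗ[K] K) (yC : C)
      (fF : F →ₗ[K] K) (yF : F) (fT : T →ₗ[K] K) (yT : T),
      (∀ x : S, fE (a x) • yE = fS x • a yS) → (∀ x : C, fE (b x) • yE = fC x • b yC) →
      (∀ x : C, fF (c x) • yF = fC x • c yC) → (∀ x : T, fF (d x) • yF = fT x • d yT) →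
      (∀ x, fS x • yS = 0) ∧ (∀ x, fE x • yE = 0) ∧ (∀ x, fC x • yC = 0) ∧
        (∀ x, fF x • yF = 0) ∧ (∀ x, fT x • yT = 0) := by
    intro fS yS fE yE fC yC fF yF fT yT e1 e2 e3 e4
    obtain ⟨k, k1, k2, k3, k4, k5⟩ := hs (fS.smulRight yS) (fE.smulRight yE) (fC.smulRight yC)
      (fF.smulRight yF) (fT.smulRight yT)
      (fun x => by simpa using e1 x) (fun x => by simpa using e2 x) (fun x => by simpa using e3 x)
      (fun x => by simpa using e4 x)
    simp only [LinearMap.smulRight_apply] at k1 k2 k3 k4 k5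
    by_cases hk : k = 0
    · subst hk
      simp only [zero_smul] at k1 k2 k3 k4 k5
      exact ⟨k1, k2, k3, k4, k5⟩
    · exact absurd ⟨fr1 _ _ k hk k1, fr1 _ _ k hk k2, fr1 _ _ k hk k3, fr1 _ _ k hk k4,
        fr1 _ _ k hk k5⟩ hd
  -- injectivity
  have ha : Function.Injective a := by
    rw [injective_iff_map_eq_zero]
    intro x hx
    by_contra hx0
    obtain ⟨φ, hφ⟩ := exists_phi_ne (K := K) hx0
    have h3 := (P φ x 0 0 0 0 0 0 0 0 (fun y => by rw [hx]; simp) (fun y => by simp)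
      (fun y => by simp) (fun y => by simp)).1 x
    rcases smul_eq_zero.1 h3 with h4 | h4
    · exact hφ h4
    · exact hx0 h4
  have hd' : Function.Injective d := by
    rw [injective_iff_map_eq_zero]
    intro x hx
    by_contra hx0
    obtain ⟨φ, hφ⟩ := exists_phi_ne (K := K) hx0
    have h3 := (P 0 0 0 0 0 0 0 0 φ x (fun y => by simp) (fun y => by simp)
      (fun y => by simp) (fun y => by rw [hx]; simp)).2.2.2.2 x
    rcases smul_eq_zero.1 h3 with h4 | h4
    · exact hφ h4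
    · exact hx0 h4
  -- surjectivity
  have hb : Function.Surjective b := by
    by_contra h
    obtain ⟨ψ, hψ, hk⟩ := exists_phi_kill (LinearMap.range b)
      (fun h' => h (LinearMap.range_eq_top.1 h'))
    by_cases hz : ∀ x, ψ (a x) = 0
    · obtain ⟨y, hy⟩ := exists_ne_of_phi hψ
      have h3 := (P 0 0 ψ y 0 0 0 0 0 0 (fun x => by rw [hz]; simp)
        (fun x => by rw [hk _ ⟨x, rfl⟩]; simp) (fun x => by simp) (fun x => by simp)).2.1 y
      rcases smul_eq_zero.1 h3 with h4 | h4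
      · exact hy h4
      · exact hy (by rw [h4, map_zero])
    · push Not at hz
      obtain ⟨x, hx⟩ := hz
      have h3 := (P (ψ ∘ₗ a) x ψ (a x) 0 0 0 0 0 0 (fun y => rfl)
        (fun y => by rw [hk _ ⟨y, rfl⟩]; simp) (fun x => by simp) (fun x => by simp)).2.1 (a x)
      rcases smul_eq_zero.1 h3 with h4 | h4
      · exact hx h4
      · exact hx (by rw [h4, map_zero])
  have hc : Function.Surjective c := by
    by_contra h
    obtain ⟨ψ, hψ, hk⟩ := exists_phi_kill (LinearMap.range c)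
      (fun h' => h (LinearMap.range_eq_top.1 h'))
    by_cases hz : ∀ x, ψ (d x) = 0
    · obtain ⟨y, hy⟩ := exists_ne_of_phi hψ
      have h3 := (P 0 0 0 0 0 0 ψ y 0 0 (fun x => by simp) (fun x => by simp)
        (fun x => by rw [hk _ ⟨x, rfl⟩]; simp) (fun x => by rw [hz]; simp)).2.2.2.1 y
      rcases smul_eq_zero.1 h3 with h4 | h4
      · exact hy h4
      · exact hy (by rw [h4, map_zero])
    · push Not at hz
      obtain ⟨x, hx⟩ := hz
      have h3 := (P 0 0 0 0 0 0 ψ (d x) (ψ ∘ₗ d) x (fun x => by simp) (fun x => by simp)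
        (fun y => by rw [hk _ ⟨y, rfl⟩]; simp) (fun y => rfl)).2.2.2.1 (d x)
      rcases smul_eq_zero.1 h3 with h4 | h4
      · exact hx h4
      · exact hx (by rw [h4, map_zero])
  -- the four subspaces
  have hLle : LinearMap.ker b ≤ (LinearMap.range a).comap b := by
    intro x hx
    change b x ∈ LinearMap.range a
    rw [LinearMap.mem_ker.1 hx]
    exact Submodule.zero_mem _
  have hRle : LinearMap.ker c ≤ (LinearMap.range d).comap c := by
    intro x hx
    change c x ∈ LinearMap.range d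
    rw [LinearMap.mem_ker.1 hx]
    exact Submodule.zero_mem _
  obtain ⟨hcompl, hne⟩ := four_sub (LinearMap.ker b) ((LinearMap.range a).comap b)
    (LinearMap.ker c) ((LinearMap.range d).comap c) hLle hRle
    (by
      intro u φ hu hφ c1 c2 c3 c4
      obtain ⟨fE, yE, fS, yS, e1, e2⟩ := t2_ext a b hb u φ c1 c2
      obtain ⟨fF, yF, fT, yT, e3, e4⟩ := t2_ext d c hc u φ c3 c4
      obtain ⟨y, hy⟩ := exists_ne_of_phi hφ
      have h3 := (P fS yS fE yE φ u fF yF fT yT e1 e2 e4 e3).2.2.1 y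
      rcases smul_eq_zero.1 h3 with h4 | h4
      · exact hy h4
      · exact hu h4)
  by_cases hC : ∃ v : C, v ≠ 0
  · obtain ⟨v, hv⟩ := hC
    obtain ⟨hL, hR⟩ := hne v hv
    obtain ⟨l, hl, hl0⟩ := Submodule.exists_mem_ne_zero_of_ne_bot hL
    obtain ⟨r, hr, hr0⟩ := Submodule.exists_mem_ne_zero_of_ne_bot hR
    obtain ⟨g, hg⟩ := exists_rinv b hb
    obtain ⟨g', hg'⟩ := exists_rinv c hc
    set p : C →ₗ[K] C := ((LinearMap.range a).comap b).projection ((LinearMap.range d).comap c)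
      hcompl with hp
    have pl : ∀ x, b x ∈ LinearMap.range a → p x = x := fun x hx =>
      Submodule.projection_apply_of_mem_left hcompl hx
    have pr : ∀ x, c x ∈ LinearMap.range d → p x = 0 := fun x hx =>
      Submodule.projection_apply_of_mem_right hcompl hx
    have e1 : ∀ x, (b ∘ₗ p ∘ₗ g) (b x) = b (p x) := by
      intro x
      have h3 : b (g (b x) - x) = 0 := by rw [map_sub, hg, sub_self]
      have h4 : p (g (b x) - x) = g (b x) - x := pl _ (by rw [h3]; exact Submodule.zero_mem _)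
      have h5 : b (p (g (b x) - x)) = 0 := by rw [h4, h3]
      rw [map_sub, map_sub, sub_eq_zero] at h5
      exact h5
    have e2 : ∀ x, (c ∘ₗ p ∘ₗ g') (c x) = c (p x) := by
      intro x
      have h3 : c (g' (c x) - x) = 0 := by rw [map_sub, hg', sub_self]
      have h4 : p (g' (c x) - x) = 0 := pr _ (by rw [h3]; exact Submodule.zero_mem _)
      have h5 : c (p (g' (c x) - x)) = 0 := by rw [h4, map_zero]
      rw [map_sub, map_sub, sub_eq_zero] at h5
      exact h5
    obtain ⟨k, -, -, k3, -, -⟩ := hs LinearMap.id (b ∘ₗ p ∘ₗ g) p (c ∘ₗ p ∘ₗ g') 0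
      (fun x => by
        obtain ⟨y, hy⟩ := hb (a x)
        rw [← hy, e1, pl y (by rw [hy]; exact ⟨x, rfl⟩), hy]
        rfl) e1 e2
      (fun x => by
        obtain ⟨y, hy⟩ := hc (d x)
        rw [← hy, e2, pr y (by rw [hy]; exact ⟨x, rfl⟩)]
        simp)
    have e3 := k3 l
    rw [pl l hl] at e3
    have e4 := k3 r
    rw [pr r hr] at e4
    rcases smul_eq_zero.1 e4.symm with h4 | h4
    · rw [h4, zero_smul] at e3
      exact hl0 e3
    · exact hr0 h4
  · push Not at hC
    have : Subsingleton C := ⟨fun x y => by rw [hC x, hC y]⟩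
    have : Subsingleton E := hb.subsingleton
    have : Subsingleton F := hc.subsingleton
    have : Subsingleton S := ha.subsingleton
    have : Subsingleton T := hd'.subsingleton
    apply hd
    refine ⟨?_, ?_, ?_, ?_, ?_⟩ <;> rw [Module.finrank_zero_of_subsingleton] <;> exact zero_le_one

end WS862
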