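import Pool.Agent.R862.WS.Defs

/-!
The algebra is wild (piece WILD of project WS).
-/

set_option autoImplicit false

universe u

namespace WS862

open Finset

/-- the index set of the bimodule -/
abbrev Ix : Type := (Fin 6 × Fin 5) ⊕ Fin 2

/-- the vertex of an index -/
def vert : Ix → Fin 5 := Sum.elim (fun p => ![2, 2, 3, 0, 1, 4] p.1) (fun _ => 3)

/-- top (`true`) or radical (`false`) -/
def lv : Ix → Bool := Sum.elim (fun p => ![true, false, false, true, true, false] p.1) (fun _ => true)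

/-- target copies -/
def tc : Fin 7 → Fin 6 := ![1, 5, 1, 2, 2, 5, 5]

/-- source copies -/
def sc : Fin 7 → Fin 6 := ![3, 3, 4, 4, 0, 0, 0]

section wild
variable (K : Type u) [Field K]

/-- the coefficients -/
def cf (a : Fin 7) (k : Fin 5) : FreeAlgebra K (Fin 2) :=
  if a = 4 then algebraMap K _ ((k : ℕ) : K) else 1

/-- the `5 × 2`-matrix of the embedding -/
def emb : Fin 5 → Fin 2 → FreeAlgebra K (Fin 2) :=
  ![![1, 0], ![0, 1], ![1, 1], ![1, FreeAlgebra.ι K 0], ![1, FreeAlgebra.ι K 1]]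

/-- the matrices of the arrows -/
def NN (a : Fin 7) : Matrix Ix Ix (FreeAlgebra K (Fin 2)) := fun i j =>
  match i, j with
  | Sum.inl p, Sum.inl q =>
      if a ≠ 6 ∧ p.1 = tc a ∧ q.1 = sc a ∧ p.2 = q.2 then cf K a p.2 else 0
  | Sum.inl p, Sum.inr j => if a = 6 ∧ p.1 = 5 then emb K p.2 j else 0
  | Sum.inr _, _ => 0

lemma facts : ∀ a : Fin 7, a ≠ 6 → ∀ k : Fin 5, vert (Sum.inl (tc a, k)) = tgt a ∧
    vert (Sum.inl (sc a, k)) = src a ∧ lv (Sum.inl (tc a, k)) = false ∧
    lv (Sum.inl (sc a, k)) = true := by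
  decide

lemma facts6 : ∀ k : Fin 5, ∀ j : Fin 2, vert (Sum.inl (5, k)) = tgt 6 ∧
    vert (Sum.inr j) = src 6 ∧ lv (Sum.inl (5, k)) = false ∧ lv (Sum.inr j) = true := by
  decide

lemma supp (a : Fin 7) (i j : Ix) : NN K a i j = 0 ∨
    (vert i = tgt a ∧ vert j = src a ∧ lv i = false ∧ lv j = true) := by
  rcases i with ⟨c, k⟩ | i
  · rcases j with ⟨c', k'⟩ | j
    · by_cases h : a ≠ 6 ∧ c = tc a ∧ c' = sc a ∧ k = k'
      · obtain ⟨h1, rfl, rfl, rfl⟩ := h
        exact Or.inr (facts a h1 k)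
      · exact Or.inl (if_neg h)
    · by_cases h : a = 6 ∧ c = 5
      · obtain ⟨rfl, rfl⟩ := h
        exact Or.inr (facts6 k j)
      · exact Or.inl (if_neg h)
  · exact Or.inl rfl

/-- the diagonal matrix -/
noncomputable def DD (d : Fin 5 → K) : Matrix Ix Ix (FreeAlgebra K (Fin 2)) :=
  Matrix.diagonal fun i => algebraMap K _ (d (vert i))

lemma DD_mul (d : Fin 5 → K) (a : Fin 7) : DD K d * NN K a = d (tgt a) • NN K a := by
  ext i j
  rw [DD, Matrix.diagonal_mul, Matrix.smul_apply, ← Algebra.smul_def]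
  rcases supp K a i j with h | h
  · rw [h, smul_zero, smul_zero]
  · rw [h.1]

lemma mul_DD (d : Fin 5 → K) (a : Fin 7) : NN K a * DD K d = d (src a) • NN K a := by
  ext i j
  rw [DD, Matrix.mul_diagonal, Matrix.smul_apply, ← Algebra.commutes, ← Algebra.smul_def]
  rcases supp K a i j with h | h
  · rw [h, smul_zero, smul_zero]
  · rw [h.2.1]

lemma NN_mul (a b : Fin 7) : NN K a * NN K b = 0 := by
  ext i j
  rw [Matrix.mul_apply]
  refine Finset.sum_eq_zero fun k _ => ?_
  rcases supp K a i k with h | h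
  · rw [h, zero_mul]
  · rcases supp K b k j with h' | h'
    · rw [h', mul_zero]
    · exfalso
      have h1 := h.2.2.2
      rw [h'.2.2.1] at h1
      cases h1

lemma DD_DD (d d' : Fin 5 → K) : DD K d * DD K d' = DD K (d * d') := by
  rw [DD, DD, Matrix.diagonal_mul_diagonal, DD]
  congr 1
  funext i
  rw [Pi.mul_apply, map_mul]

/-- the linear map -/
noncomputable def PhL : Alg K →ₗ[K] Matrix Ix Ix (FreeAlgebra K (Fin 2)) where
  toFun x := DD K x.1 + ∑ a, x.2 a • NN K a
  map_add' x y := by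
    have h1 : DD K (x + y).1 = DD K x.1 + DD K y.1 := by
      ext i j
      by_cases h : i = j
      · subst h
        simp [DD, map_add]
      · simp [DD, Matrix.diagonal_apply_ne _ h]
    rw [h1]
    simp only [R2.add_2, add_smul, Finset.sum_add_distrib]
    abel
  map_smul' c x := by
    have h1 : DD K (c • x).1 = c • DD K x.1 := by
      ext i j
      by_cases h : i = j
      · subst h
        rw [Matrix.smul_apply, DD, DD, Matrix.diagonal_apply_eq, Matrix.diagonal_apply_eq]
        show algebraMap K (FreeAlgebra K (Fin 2)) (c * x.1 (vert i)) =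
          c • algebraMap K (FreeAlgebra K (Fin 2)) (x.1 (vert i))
        rw [map_mul, Algebra.smul_def]
      · simp [DD, Matrix.diagonal_apply_ne _ h]
    rw [h1]
    simp only [R2.smul_2, mul_smul, smul_add, Finset.smul_sum, RingHom.id_apply]

/-- the algebra homomorphism -/
noncomputable def Ph : Alg K →ₐ[K] Matrix Ix Ix (FreeAlgebra K (Fin 2)) :=
  AlgHom.ofLinearMap (PhL K)
    (by
      show DD K (1 : Alg K).1 + ∑ a, (1 : Alg K).2 a • NN K a = 1
      have h1 : DD K (1 : Alg K).1 = 1 := by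
        ext i j
        by_cases h : i = j
        · subst h
          simp [DD]
        · simp [DD, Matrix.diagonal_apply_ne _ h, Matrix.one_apply_ne h]
      rw [h1]
      simp)
    (fun x y => by
      show DD K (x * y).1 + ∑ a, (x * y).2 a • NN K a =
        (DD K x.1 + ∑ a, x.2 a • NN K a) * (DD K y.1 + ∑ a, y.2 a • NN K a)
      have h0 : (∑ a, x.2 a • NN K a) * (∑ a, y.2 a • NN K a) = 0 := by
        rw [Finset.sum_mul_sum]
        refine Finset.sum_eq_zero fun a _ => Finset.sum_eq_zero fun b _ => ?_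
        rw [smul_mul_smul_comm, NN_mul, smul_zero]
      have h1 : DD K x.1 * (∑ a, y.2 a • NN K a) = ∑ a, (x.1 (tgt a) * y.2 a) • NN K a := by
        rw [Finset.mul_sum]
        refine Finset.sum_congr rfl fun a _ => ?_
        rw [mul_smul_comm, DD_mul, smul_smul, mul_comm]
      have h2 : (∑ a, x.2 a • NN K a) * DD K y.1 = ∑ a, (x.2 a * y.1 (src a)) • NN K a := by
        rw [Finset.sum_mul]
        refine Finset.sum_congr rfl fun a _ => ?_
        rw [smul_mul_assoc, mul_DD, smul_smul]
      have h3 : DD K (x * y).1 = DD K x.1 * DD K y.1 := by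
        rw [DD_DD]
        rfl
      rw [add_mul, mul_add, mul_add, h0, h1, h2, h3]
      simp only [R2.mul_2, add_smul, Finset.sum_add_distrib]
      abel)

lemma Ph_apply (x : Alg K) (i j : Ix) : Ph K x i j =
    (if i = j then algebraMap K _ (x.1 (vert i)) else 0) + ∑ a, x.2 a • NN K a i j := by
  show (DD K x.1 + ∑ a, x.2 a • NN K a) i j = _
  rw [Matrix.add_apply, Matrix.sum_apply]
  congr 1

lemma Ph_e (q : Fin 5) (i j : Ix) : Ph K (R2.e q) i j = if i = j ∧ vert i = q then 1 else 0 := by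
  rw [Ph_apply]
  have h1 : ∀ a, (R2.e q : Alg K).2 a = 0 := fun a => rfl
  have h2 : ∀ p, (R2.e q : Alg K).1 p = if p = q then 1 else 0 := fun p => Pi.single_apply q 1 p
  simp only [h1, h2, zero_smul, Finset.sum_const_zero, add_zero]
  by_cases h : i = j
  · by_cases h' : vert i = q
    · simp [h, h']
    · simp [h, h']
  · simp [h]

lemma Ph_ar (a : Fin 7) (i j : Ix) : Ph K (R2.ar a) i j = NN K a i j := by
  rw [Ph_apply]
  have h1 : ∀ p, (R2.ar a : Alg K).1 p = 0 := fun a => rfl
  have h2 : ∀ b, (R2.ar a : Alg K).2 b = if b = a then 1 else 0 := fun p => Pi.single_apply a 1 p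
  simp only [h1, h2, map_zero, ite_self, zero_add, ite_smul, one_smul, zero_smul,
    Finset.sum_ite_eq', Finset.mem_univ, if_true]

end wild

section homs
variable {K : Type u} [Field K] {V W : Type u} [AddCommGroup V] [Module K V] [AddCommGroup W]
  [Module K W]

/-- the inclusion of a copy of `V ^ 5` -/
def inc (c : Fin 6) : (Fin 5 → V) →ₗ[K] (Ix → V) where
  toFun z := Sum.elim (fun p => if p.1 = c then z p.2 else 0) (fun _ => 0)
  map_add' x y := by
    funext i
    rcases i with ⟨c', k⟩ | j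
    · by_cases h : c' = c <;> simp [h]
    · simp
  map_smul' r x := by
    funext i
    rcases i with ⟨c', k⟩ | j
    · by_cases h : c' = c <;> simp [h]
    · simp

/-- the inclusion of `V ^ 2` -/
def incP : (Fin 2 → V) →ₗ[K] (Ix → V) where
  toFun z := Sum.elim (fun _ => 0) z
  map_add' x y := by
    funext i
    rcases i with ⟨c', k⟩ | j <;> simp
  map_smul' r x := by
    funext i
    rcases i with ⟨c', k⟩ | j <;> simp

@[simp] lemma inc_inl (c c' : Fin 6) (k : Fin 5) (z : Fin 5 → V) :
    (inc (K := K) c z : Ix → V) (Sum.inl (c', k)) = if c' = c then z k else 0 := rfl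
@[simp] lemma inc_inr (c : Fin 6) (j : Fin 2) (z : Fin 5 → V) :
    (inc (K := K) c z : Ix → V) (Sum.inr j) = 0 := rfl
@[simp] lemma incP_inl (p : Fin 6 × Fin 5) (z : Fin 2 → V) :
    (incP (K := K) z : Ix → V) (Sum.inl p) = 0 := rfl
@[simp] lemma incP_inr (j : Fin 2) (z : Fin 2 → V) :
    (incP (K := K) z : Ix → V) (Sum.inr j) = z j := rfl

lemma act (ρ : FreeAlgebra K (Fin 2) →ₐ[K] Module.End K V) (a : Fin 7) (ha : a ≠ 6)
    (v : Ix → V) : ind (Ph K) ρ (R2.ar a) v =
      inc (K := K) (tc a) (fun k => ρ (cf K a k) (v (Sum.inl (sc a, k)))) := by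
  funext i
  rw [ind_apply]
  simp only [Ph_ar]
  rw [Fintype.sum_sum_type]
  rcases i with ⟨c, k⟩ | i
  · have h1 : ∀ j : Fin 2, NN K a (Sum.inl (c, k)) (Sum.inr j) = 0 := fun j =>
      if_neg (fun h => ha h.1)
    have h2 : ∀ q : Fin 6 × Fin 5, NN K a (Sum.inl (c, k)) (Sum.inl q) =
        if q = (sc a, k) then (if c = tc a then cf K a k else 0) else 0 := by
      intro q
      show (if a ≠ 6 ∧ c = tc a ∧ q.1 = sc a ∧ k = q.2 then cf K a k else 0) = _
      by_cases hq : q = (sc a, k)
      · subst hq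
        by_cases hc : c = tc a
        · simp [ha, hc]
        · simp [hc]
      · rw [if_neg hq, if_neg]
        rintro ⟨_, _, h3, h4⟩
        exact hq (Prod.ext h3 h4.symm)
    simp only [h1, h2, map_zero, LinearMap.zero_apply, Finset.sum_const_zero, add_zero]
    rw [Finset.sum_eq_single (sc a, k)]
    · rw [if_pos rfl, inc_inl]
      split_ifs
      · rfl
      · rw [map_zero]; rfl
    · intro q _ hq
      rw [if_neg hq, map_zero]
      rfl
    · intro h
      exact absurd (Finset.mem_univ _) h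
  · have h1 : ∀ j : Fin 2, NN K a (Sum.inr i) (Sum.inr j) = 0 := fun j => rfl
    have h2 : ∀ q : Fin 6 × Fin 5, NN K a (Sum.inr i) (Sum.inl q) = 0 := fun q => rfl
    simp only [h1, h2, map_zero, LinearMap.zero_apply, Finset.sum_const_zero, add_zero, inc_inr]

lemma act6 (ρ : FreeAlgebra K (Fin 2) →ₐ[K] Module.End K V) (v : Ix → V) :
    ind (Ph K) ρ (R2.ar 6) v =
      inc (K := K) 5 (fun k => ∑ j : Fin 2, ρ (emb K k j) (v (Sum.inr j))) := by
  funext i
  rw [ind_apply]
  simp only [Ph_ar]
  rw [Fintype.sum_sum_type]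
  rcases i with ⟨c, k⟩ | i
  · have h1 : ∀ j : Fin 2, NN K 6 (Sum.inl (c, k)) (Sum.inr j) =
        if c = 5 then emb K k j else 0 := by
      intro j
      show (if (6 : Fin 7) = 6 ∧ c = 5 then emb K k j else 0) = _
      simp
    have h2 : ∀ q : Fin 6 × Fin 5, NN K 6 (Sum.inl (c, k)) (Sum.inl q) = 0 := by
      intro q
      show (if (6 : Fin 7) ≠ 6 ∧ c = tc 6 ∧ q.1 = sc 6 ∧ k = q.2 then cf K 6 k else 0) = 0
      exact if_neg (fun h => h.1 rfl)
    simp only [h1, h2, map_zero, LinearMap.zero_apply, Finset.sum_const_zero, zero_add, inc_inl]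
    by_cases hc : c = 5
    · simp [hc]
    · simp [hc]
  · have h1 : ∀ j : Fin 2, NN K 6 (Sum.inr i) (Sum.inr j) = 0 := fun j => rfl
    have h2 : ∀ q : Fin 6 × Fin 5, NN K 6 (Sum.inr i) (Sum.inl q) = 0 := fun q => rfl
    simp only [h1, h2, map_zero, LinearMap.zero_apply, Finset.sum_const_zero, add_zero, inc_inr]

lemma actE (ρ : FreeAlgebra K (Fin 2) →ₐ[K] Module.End K V) (q : Fin 5) (v : Ix → V) :
    ind (Ph K) ρ (R2.e q) v = fun i => if vert i = q then v i else 0 := by
  funext i
  rw [ind_apply]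
  simp only [Ph_e]
  rw [Finset.sum_eq_single i]
  · by_cases h : vert i = q
    · simp [h]
    · simp [h]
  · intro j _ hj
    rw [if_neg (fun h => hj h.1.symm), map_zero]
    rfl
  · intro h
    exact absurd (Finset.mem_univ _) h

/-- the structure of the homomorphisms -/
theorem key [CharZero K] (ρ : FreeAlgebra K (Fin 2) →ₐ[K] Module.End K V)
    (σ : FreeAlgebra K (Fin 2) →ₐ[K] Module.End K W) (Θ : (Ix → V) →ₗ[K] (Ix → W))
    (hΘ : ∀ a v, Θ (ind (Ph K) ρ a v) = ind (Ph K) σ a (Θ v)) :
    ∃ g : V →ₗ[K] W, (∀ a v, g (ρ a v) = σ a (g v)) ∧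
      (∀ c : Fin 6, c ≠ 0 → ∀ z, Θ (inc (K := K) c z) = inc (K := K) c (fun k => g (z k))) ∧
      (∀ z, ∃ w, Θ (inc (K := K) 0 z) =
        inc (K := K) 0 (fun k => g (z k)) + inc (K := K) 1 w) ∧
      (∀ w, ∃ z, Θ (incP (K := K) w) = incP (K := K) (fun k => g (w k)) + inc (K := K) 2 z) := by
  -- the equations of the arrows
  have hone : ∀ (a : Fin 7) (k : Fin 5), a ≠ 4 → cf K a k = 1 := fun a k h => if_neg h
  have b5 : ∀ v : Ix → V, Θ (inc (K := K) 5 (fun k => v (Sum.inl (0, k)))) =
      inc (K := K) 5 (fun k => Θ v (Sum.inl (0, k))) := by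
    intro v
    have h := hΘ (R2.ar 5) v
    rw [act ρ 5 (by decide), act σ 5 (by decide)] at h
    simpa [hone 5 _ (by decide), tc, sc] using h
  have b1 : ∀ v : Ix → V, Θ (inc (K := K) 5 (fun k => v (Sum.inl (3, k)))) =
      inc (K := K) 5 (fun k => Θ v (Sum.inl (3, k))) := by
    intro v
    have h := hΘ (R2.ar 1) v
    rw [act ρ 1 (by decide), act σ 1 (by decide)] at h
    simpa [hone 1 _ (by decide), tc, sc] using h
  have b0 : ∀ v : Ix → V, Θ (inc (K := K) 1 (fun k => v (Sum.inl (3, k)))) =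
      inc (K := K) 1 (fun k => Θ v (Sum.inl (3, k))) := by
    intro v
    have h := hΘ (R2.ar 0) v
    rw [act ρ 0 (by decide), act σ 0 (by decide)] at h
    simpa [hone 0 _ (by decide), tc, sc] using h
  have b2 : ∀ v : Ix → V, Θ (inc (K := K) 1 (fun k => v (Sum.inl (4, k)))) =
      inc (K := K) 1 (fun k => Θ v (Sum.inl (4, k))) := by
    intro v
    have h := hΘ (R2.ar 2) v
    rw [act ρ 2 (by decide), act σ 2 (by decide)] at h
    simpa [hone 2 _ (by decide), tc, sc] using h
  have b3 : ∀ v : Ix → V, Θ (inc (K := K) 2 (fun k => v (Sum.inl (4, k)))) =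
      inc (K := K) 2 (fun k => Θ v (Sum.inl (4, k))) := by
    intro v
    have h := hΘ (R2.ar 3) v
    rw [act ρ 3 (by decide), act σ 3 (by decide)] at h
    simpa [hone 3 _ (by decide), tc, sc] using h
  have b4 : ∀ v : Ix → V, Θ (inc (K := K) 2 (fun k => ((k : ℕ) : K) • v (Sum.inl (0, k)))) =
      inc (K := K) 2 (fun k => ((k : ℕ) : K) • Θ v (Sum.inl (0, k))) := by
    intro v
    have h := hΘ (R2.ar 4) v
    rw [act ρ 4 (by decide), act σ 4 (by decide)] at h
    have hk : ∀ k : Fin 5, cf K 4 k = algebraMap K _ ((k : ℕ) : K) := fun k => if_pos rfl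
    simp only [hk, AlgHom.commutes, Module.algebraMap_end_apply] at h
    exact h
  have b6 : ∀ v : Ix → V, Θ (inc (K := K) 5 (fun k => ∑ j : Fin 2, ρ (emb K k j) (v (Sum.inr j)))) =
      inc (K := K) 5 (fun k => ∑ j : Fin 2, σ (emb K k j) (Θ v (Sum.inr j))) := by
    intro v
    have h := hΘ (R2.ar 6) v
    rw [act6, act6] at h
    exact h
  have be : ∀ (q : Fin 5) (v : Ix → V), Θ (fun i => if vert i = q then v i else 0) =
      fun i => if vert i = q then Θ v i else 0 := by
    intro q v
    have h := hΘ (R2.e q) v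
    rw [actE, actE] at h
    exact h
  -- the map `G`
  obtain ⟨G, hG⟩ : ∃ G : (Fin 5 → V) →ₗ[K] (Fin 5 → W), ∀ z k,
      G z k = Θ (inc (K := K) 5 z) (Sum.inl (5, k)) :=
    ⟨(LinearMap.funLeft K W (fun k : Fin 5 => (Sum.inl (5, k) : Ix))) ∘ₗ Θ ∘ₗ inc (K := K) 5,
      fun z k => rfl⟩
  have c0 : ∀ z k, Θ (inc (K := K) 0 z) (Sum.inl (0, k)) = G z k := by
    intro z k
    have h := b5 (inc (K := K) 0 z)
    simp only [inc_inl, if_true] at h
    rw [hG, h, inc_inl, if_pos rfl]
  have A5 : ∀ z, Θ (inc (K := K) 5 z) = inc (K := K) 5 (G z) := by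
    intro z
    have h := b5 (inc (K := K) 0 z)
    simp only [inc_inl, if_true, c0] at h
    exact h
  have c3 : ∀ z k, Θ (inc (K := K) 3 z) (Sum.inl (3, k)) = G z k := by
    intro z k
    have h := b1 (inc (K := K) 3 z)
    simp only [inc_inl, if_true] at h
    rw [hG, h, inc_inl, if_pos rfl]
  have A1 : ∀ z, Θ (inc (K := K) 1 z) = inc (K := K) 1 (G z) := by
    intro z
    have h := b0 (inc (K := K) 3 z)
    simp only [inc_inl, if_true, c3] at h
    exact h
  have c4 : ∀ z k, Θ (inc (K := K) 4 z) (Sum.inl (4, k)) = G z k := by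
    intro z k
    have h := b2 (inc (K := K) 4 z)
    simp only [inc_inl, if_true] at h
    rw [A1] at h
    have h2 := congrFun h (Sum.inl (1, k))
    rw [inc_inl, inc_inl, if_pos rfl, if_pos rfl] at h2
    exact h2.symm
  have A2 : ∀ z, Θ (inc (K := K) 2 z) = inc (K := K) 2 (G z) := by
    intro z
    have h := b3 (inc (K := K) 4 z)
    simp only [inc_inl, if_true, c4] at h
    exact h
  have A4 : ∀ (z : Fin 5 → V) (k : Fin 5), G (fun k => ((k : ℕ) : K) • z k) k =
      ((k : ℕ) : K) • G z k := by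
    intro z k
    have h := b4 (inc (K := K) 0 z)
    simp only [inc_inl, if_true, c0] at h
    rw [A2] at h
    have h2 := congrFun h (Sum.inl (2, k))
    rw [inc_inl, inc_inl, if_pos rfl, if_pos rfl] at h2
    exact h2
  have A6 : ∀ (w : Fin 2 → V) (k : Fin 5), G (fun k => ∑ j : Fin 2, ρ (emb K k j) (w j)) k =
      ∑ j : Fin 2, σ (emb K k j) (Θ (incP (K := K) w) (Sum.inr j)) := by
    intro w k
    have h := b6 (incP (K := K) w)
    simp only [incP_inr] at h
    rw [A5] at h
    have h2 := congrFun h (Sum.inl (5, k))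
    rw [inc_inl, inc_inl, if_pos rfl, if_pos rfl] at h2
    exact h2
  -- `G` is diagonal
  have hoff : ∀ (k l : Fin 5) (v : V), l ≠ k → G (Pi.single k v) l = 0 := by
    intro k l v hlk
    have h := A4 (Pi.single k v) l
    have h1 : (fun i : Fin 5 => ((i : ℕ) : K) • (Pi.single k v : Fin 5 → V) i) =
        ((k : ℕ) : K) • (Pi.single k v : Fin 5 → V) := by
      funext i
      by_cases hi : i = k
      · subst hi; rfl
      · rw [Pi.smul_apply, Pi.single_eq_of_ne hi, smul_zero, smul_zero]
    rw [h1, map_smul, Pi.smul_apply, ← sub_eq_zero, ← sub_smul] at h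
    rcases smul_eq_zero.1 h with h2 | h2
    · exfalso
      rw [sub_eq_zero] at h2
      exact hlk (Fin.ext (Nat.cast_injective h2)).symm
    · exact h2
  have hdiag : ∀ (z : Fin 5 → V) (l : Fin 5), G z l = G (Pi.single l (z l)) l := by
    intro z l
    conv_lhs => rw [← Finset.univ_sum_single z]
    rw [map_sum, Finset.sum_apply, Finset.sum_eq_single l]
    · intro k _ hk
      exact hoff k l _ hk.symm
    · intro h
      exact absurd (Finset.mem_univ _) h
  obtain ⟨g, hg⟩ : ∃ g : V →ₗ[K] W, ∀ v, g v = G (Pi.single 0 v) 0 :=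
    ⟨LinearMap.proj 0 ∘ₗ G ∘ₗ LinearMap.single K (fun _ => V) 0, fun v => rfl⟩
  have e0 : ∀ w : Fin 2 → V, G (Pi.single 0 (w 0)) 0 = Θ (incP (K := K) w) (Sum.inr 0) := by
    intro w
    have h := A6 w 0
    rw [hdiag] at h
    simpa [emb] using h
  have e1 : ∀ w : Fin 2 → V, G (Pi.single 1 (w 1)) 1 = Θ (incP (K := K) w) (Sum.inr 1) := by
    intro w
    have h := A6 w 1
    rw [hdiag] at h
    simpa [emb] using h
  have e2 : ∀ w : Fin 2 → V, G (Pi.single 2 (w 0 + w 1)) 2 =
      G (Pi.single 0 (w 0)) 0 + G (Pi.single 1 (w 1)) 1 := by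
    intro w
    have h := A6 w 2
    rw [hdiag] at h
    rw [e0, e1]
    simpa [emb] using h
  have e3 : ∀ w : Fin 2 → V, G (Pi.single 3 (w 0 + ρ (FreeAlgebra.ι K 0) (w 1))) 3 =
      G (Pi.single 0 (w 0)) 0 + σ (FreeAlgebra.ι K 0) (G (Pi.single 1 (w 1)) 1) := by
    intro w
    have h := A6 w 3
    rw [hdiag] at h
    rw [e0, e1]
    simpa [emb] using h
  have e4 : ∀ w : Fin 2 → V, G (Pi.single 4 (w 0 + ρ (FreeAlgebra.ι K 1) (w 1))) 4 =
      G (Pi.single 0 (w 0)) 0 + σ (FreeAlgebra.ι K 1) (G (Pi.single 1 (w 1)) 1) := by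
    intro w
    have h := A6 w 4
    rw [hdiag] at h
    rw [e0, e1]
    simpa [emb] using h
  have f2 : ∀ v, G (Pi.single 2 v) 2 = g v := by
    intro v
    have h := e2 ![v, 0]
    simp only [Matrix.cons_val_zero, Matrix.cons_val_one, add_zero, Pi.single_zero, map_zero,
      Pi.zero_apply] at h
    rw [h, hg]
  have f1 : ∀ v, G (Pi.single 1 v) 1 = g v := by
    intro v
    have h := e2 ![0, v]
    simp only [Matrix.cons_val_zero, Matrix.cons_val_one, zero_add, Pi.single_zero, map_zero,
      Pi.zero_apply] at h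
    rw [← h, f2]
  have f3 : ∀ v, G (Pi.single 3 v) 3 = g v := by
    intro v
    have h := e3 ![v, 0]
    simp only [Matrix.cons_val_zero, Matrix.cons_val_one, add_zero, Pi.single_zero, map_zero,
      Pi.zero_apply] at h
    rw [h, hg]
  have f4 : ∀ v, G (Pi.single 4 v) 4 = g v := by
    intro v
    have h := e4 ![v, 0]
    simp only [Matrix.cons_val_zero, Matrix.cons_val_one, add_zero, Pi.single_zero, map_zero,
      Pi.zero_apply] at h
    rw [h, hg]
  have hx : ∀ v, g (ρ (FreeAlgebra.ι K 0) v) = σ (FreeAlgebra.ι K 0) (g v) := by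
    intro v
    have h := e3 ![0, v]
    simp only [Matrix.cons_val_zero, Matrix.cons_val_one, zero_add, Pi.single_zero, map_zero,
      Pi.zero_apply] at h
    rw [f3, f1] at h
    exact h
  have hy : ∀ v, g (ρ (FreeAlgebra.ι K 1) v) = σ (FreeAlgebra.ι K 1) (g v) := by
    intro v
    have h := e4 ![0, v]
    simp only [Matrix.cons_val_zero, Matrix.cons_val_one, zero_add, Pi.single_zero, map_zero,
      Pi.zero_apply] at h
    rw [f4, f1] at h
    exact h
  have hGz : ∀ (z : Fin 5 → V), G z = fun k => g (z k) := by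
    intro z
    funext k
    rw [hdiag]
    fin_cases k
    · exact (hg _).symm
    · exact f1 _
    · exact f2 _
    · exact f3 _
    · exact f4 _
  refine ⟨g, ?_, ?_, ?_, ?_⟩
  · intro a
    refine FreeAlgebra.induction K (Fin 2) (motive := fun a => ∀ v, g (ρ a v) = σ a (g v))
      ?_ ?_ ?_ ?_ a
    · intro r v
      rw [AlgHom.commutes, AlgHom.commutes, Module.algebraMap_end_apply,
        Module.algebraMap_end_apply, map_smul]
    · intro i v
      fin_cases i
      · exact hx v
      · exact hy v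
    · intro a b ha hb v
      rw [map_mul, map_mul, Module.End.mul_apply, Module.End.mul_apply, ha, hb]
    · intro a b ha hb v
      rw [map_add, map_add, LinearMap.add_apply, LinearMap.add_apply, map_add, ha, hb]
  · intro c hc z
    fin_cases c
    · exact absurd rfl hc
    · exact (A1 z).trans (congrArg _ (hGz z))
    · exact (A2 z).trans (congrArg _ (hGz z))
    · have h := be 0 (inc (K := K) 3 z)
      have h1 : (fun i => if vert i = 0 then (inc (K := K) 3 z : Ix → V) i else 0) =
          inc (K := K) 3 z := by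
        funext i
        rcases i with ⟨c, k⟩ | j
        · fin_cases c <;> simp [vert]
        · simp
      rw [h1] at h
      show Θ (inc (K := K) 3 z) = _
      rw [h]
      funext i
      rcases i with ⟨c, k⟩ | j
      · fin_cases c <;> simp [vert, c3, hGz]
      · simp [vert]
    · have h := be 1 (inc (K := K) 4 z)
      have h1 : (fun i => if vert i = 1 then (inc (K := K) 4 z : Ix → V) i else 0) =
          inc (K := K) 4 z := by
        funext i
        rcases i with ⟨c, k⟩ | j
        · fin_cases c <;> simp [vert]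
        · simp
      rw [h1] at h
      show Θ (inc (K := K) 4 z) = _
      rw [h]
      funext i
      rcases i with ⟨c, k⟩ | j
      · fin_cases c <;> simp [vert, c4, hGz]
      · simp [vert]
    · exact (A5 z).trans (congrArg _ (hGz z))
  · intro z
    refine ⟨fun k => Θ (inc (K := K) 0 z) (Sum.inl (1, k)), ?_⟩
    have h := be 2 (inc (K := K) 0 z)
    have h1 : (fun i => if vert i = 2 then (inc (K := K) 0 z : Ix → V) i else 0) =
        inc (K := K) 0 z := by
      funext i
      rcases i with ⟨c, k⟩ | j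
      · fin_cases c <;> simp [vert]
      · simp
    rw [h1] at h
    funext i
    have h2 := congrFun h i
    rw [h2]
    rcases i with ⟨c, k⟩ | j
    · fin_cases c <;> simp [vert, c0, hGz]
    · simp [vert]
  · intro w
    refine ⟨fun k => Θ (incP (K := K) w) (Sum.inl (2, k)), ?_⟩
    have h := be 3 (incP (K := K) w)
    have h1 : (fun i => if vert i = 3 then (incP (K := K) w : Ix → V) i else 0) =
        incP (K := K) w := by
      funext i
      rcases i with ⟨c, k⟩ | j
      · fin_cases c <;> simp [vert]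
      · simp [vert]
    rw [h1] at h
    funext i
    have h2 := congrFun h i
    rw [h2]
    rcases i with ⟨c, k⟩ | j
    · fin_cases c <;> simp [vert]
    · fin_cases j
      · simp only [vert, Sum.elim_inr, if_true, Pi.add_apply, incP_inr, inc_inr, add_zero]
        exact (e0 w).symm.trans (hg _).symm
      · simp only [vert, Sum.elim_inr, if_true, Pi.add_apply, incP_inr, inc_inr, add_zero]
        exact (e1 w).symm.trans (f1 _)

lemma decomp (v : Ix → V) : v = inc (K := K) 0 (fun k => v (Sum.inl (0, k))) +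
    inc (K := K) 1 (fun k => v (Sum.inl (1, k))) + inc (K := K) 2 (fun k => v (Sum.inl (2, k))) +
    inc (K := K) 3 (fun k => v (Sum.inl (3, k))) + inc (K := K) 4 (fun k => v (Sum.inl (4, k))) +
    inc (K := K) 5 (fun k => v (Sum.inl (5, k))) + incP (K := K) (fun j => v (Sum.inr j)) := by
  funext i
  rcases i with ⟨c, k⟩ | j
  · fin_cases c <;> simp
  · simp

lemma zero_of (Θ : Module.End K (Ix → V)) (hid : Θ * Θ = Θ)
    (h1 : ∀ c : Fin 6, c ≠ 0 → ∀ z, Θ (inc (K := K) c z) = 0)
    (h2 : ∀ z, ∃ w, Θ (inc (K := K) 0 z) = inc (K := K) 1 w)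
    (h3 : ∀ w, ∃ z, Θ (incP (K := K) w) = inc (K := K) 2 z) : Θ = 0 := by
  have h0 : ∀ z, Θ (inc (K := K) 0 z) = 0 := by
    intro z
    obtain ⟨w, hw⟩ := h2 z
    have : Θ (Θ (inc (K := K) 0 z)) = Θ (inc (K := K) 0 z) := LinearMap.congr_fun hid _
    rw [← this, hw]
    exact h1 1 (by decide) w
  have hP : ∀ z, Θ (incP (K := K) z) = 0 := by
    intro z
    obtain ⟨w, hw⟩ := h3 z
    have : Θ (Θ (incP (K := K) z)) = Θ (incP (K := K) z) := LinearMap.congr_fun hid _
    rw [← this, hw]
    exact h1 2 (by decide) w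
  refine LinearMap.ext fun v => ?_
  have h := congrArg Θ (decomp (K := K) v)
  rw [h]
  simp only [map_add, h0, hP, h1 1 (by decide), h1 2 (by decide), h1 3 (by decide),
    h1 4 (by decide), h1 5 (by decide), LinearMap.zero_apply, add_zero]

end homs

theorem t_WILD : S_WILD.{u} := by
  intro K _ _
  refine ⟨Ix, inferInstance, inferInstance, Ph K, ?_, ?_⟩
  · intro V _ _ _ ρ hρ
    have := hρ.1
    refine ⟨inferInstance, ?_⟩
    have hmain : ∀ e : Module.End K (Ix → V), e * e = e →
        (∀ a : Alg K, e * ind (Ph K) ρ a = ind (Ph K) ρ a * e) →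
        ∀ g : V →ₗ[K] V, g = 0 →
        (∀ c : Fin 6, c ≠ 0 → ∀ z, e (inc (K := K) c z) = inc (K := K) c (fun k => g (z k))) →
        (∀ z, ∃ w, e (inc (K := K) 0 z) =
          inc (K := K) 0 (fun k => g (z k)) + inc (K := K) 1 w) →
        (∀ w, ∃ z, e (incP (K := K) w) =
          incP (K := K) (fun k => g (w k)) + inc (K := K) 2 z) → e = 0 := by
      intro e he _ g hg0 k2 k3 k4
      subst hg0
      have z5 : ∀ c, inc (K := K) c (fun _ : Fin 5 => (0 : V)) = 0 := fun c => map_zero _
      have zP : incP (K := K) (fun _ : Fin 2 => (0 : V)) = 0 := map_zero _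
      refine zero_of e he (fun c hc z => ?_) (fun z => ?_) (fun w => ?_)
      · rw [k2 c hc]
        simp only [LinearMap.zero_apply]
        exact z5 c
      · obtain ⟨w, hw⟩ := k3 z
        simp only [LinearMap.zero_apply] at hw
        rw [z5, zero_add] at hw
        exact ⟨w, hw⟩
      · obtain ⟨z, hz⟩ := k4 w
        simp only [LinearMap.zero_apply] at hz
        rw [zP, zero_add] at hz
        exact ⟨z, hz⟩
    intro e he hcomm
    obtain ⟨g, k1, k2, k3, k4⟩ := key ρ ρ e (fun a v => LinearMap.congr_fun (hcomm a) v)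
    have hgg : g * g = g := by
      ext1 v
      have h1 : e (e (inc (K := K) 5 (fun _ => v))) = e (inc (K := K) 5 (fun _ => v)) :=
        LinearMap.congr_fun he _
      rw [k2 5 (by decide), k2 5 (by decide)] at h1
      have h2 := congrFun h1 (Sum.inl (5, 0))
      simpa using h2
    rcases hρ.2 g hgg (fun a => by ext1 v; exact k1 a v) with h0 | h1
    · exact Or.inl (hmain e he hcomm g h0 k2 k3 k4)
    · right
      subst h1
      have he' : (1 - e) * (1 - e) = 1 - e := by
        rw [mul_sub, sub_mul, sub_mul, he]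
        simp
      have hcomm' : ∀ a : Alg K, (1 - e) * ind (Ph K) ρ a = ind (Ph K) ρ a * (1 - e) := by
        intro a
        rw [sub_mul, mul_sub, hcomm, one_mul, mul_one]
      obtain ⟨g', l1, l2, l3, l4⟩ := key ρ ρ (1 - e)
        (fun a v => LinearMap.congr_fun (hcomm' a) v)
      have hg' : g' = 0 := by
        ext1 v
        have h1 := l2 5 (by decide) (fun _ => v)
        rw [LinearMap.sub_apply, k2 5 (by decide)] at h1
        have h2 := congrFun h1 (Sum.inl (5, 0))
        simpa using h2.symm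
      have h3 := hmain (1 - e) he' hcomm' g' hg' l2 l3 l4
      exact (sub_eq_zero.1 h3).symm
  · rintro V W _ _ _ _ _ _ ρ σ ⟨e, he⟩
    obtain ⟨g, k1, k2, _, _⟩ := key ρ σ (e : (Ix → V) →ₗ[K] (Ix → W)) he
    obtain ⟨g', l1, l2, _, _⟩ := key σ ρ (e.symm : (Ix → W) →ₗ[K] (Ix → V)) (by
      intro a v
      show e.symm (ind (Ph K) σ a v) = ind (Ph K) ρ a (e.symm v)
      rw [LinearEquiv.symm_apply_eq, he, LinearEquiv.apply_symm_apply])
    have h1 : ∀ v, g' (g v) = v := by
      intro v
      have h : e.symm (e (inc (K := K) 5 (fun _ => v))) = inc (K := K) 5 (fun _ => v) :=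
        e.symm_apply_apply _
      have h2 : e (inc (K := K) 5 (fun _ => v)) = inc (K := K) 5 (fun _ => g v) :=
        k2 5 (by decide) _
      have h3 : e.symm (inc (K := K) 5 (fun _ => g v)) = inc (K := K) 5 (fun _ => g' (g v)) :=
        l2 5 (by decide) _
      rw [h2, h3] at h
      have h4 := congrFun h (Sum.inl (5, 0))
      simpa using h4
    have h2 : ∀ v, g (g' v) = v := by
      intro v
      have h : e (e.symm (inc (K := K) 5 (fun _ => v))) = inc (K := K) 5 (fun _ => v) :=
        e.apply_symm_apply _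
      have h2 : e.symm (inc (K := K) 5 (fun _ => v)) = inc (K := K) 5 (fun _ => g' v) :=
        l2 5 (by decide) _
      have h3 : e (inc (K := K) 5 (fun _ => g' v)) = inc (K := K) 5 (fun _ => g (g' v)) :=
        k2 5 (by decide) _
      rw [h2, h3] at h
      have h4 := congrFun h (Sum.inl (5, 0))
      simpa using h4
    exact ⟨LinearEquiv.ofLinearMap g g' (LinearMap.ext h2) (LinearMap.ext h1), fun a v => k1 a v⟩

end WS862
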