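import Pool.Agent.R862.WS.Defs

/-!
# Project WS: assembly of the four cases
-/

set_option autoImplicit false

universe u

namespace WS862

lemma ZO_zero {K V W : Type u} [Field K] [AddCommGroup V] [Module K V] [AddCommGroup W]
    [Module K W] {m n : ℕ} (b : Module.Basis (Fin m) K V) (c : Module.Basis (Fin n) K W)
    (f : V →ₗ[K] W) (hf : f = 0) : ZO b c f := by
  intro i j
  left
  rw [hf]
  simp

theorem t_ZOB (hC : S_CONF.{u}) (h1 : S_T1.{u}) (h2 : S_T2.{u}) (h4 : S_D4.{u}) : S_ZOB.{u} := by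
  intro K _ V0 V1 V2 V3 V4 _ _ _ _ _ _ _ _ _ _ _ _ _ _ _ R hR
  obtain ⟨hc2, hc3⟩ := hC K V0 V1 V2 V3 V4 R hR
  obtain ⟨-, hS⟩ := hR
  rcases hc2 with ⟨ha0, ha2⟩ | ⟨ha4, ha5⟩
  · rcases hc3 with ⟨ha3, ha4⟩ | ha6
    · -- the vertex 1 is isolated
      by_cases hV1 : ∀ x : V1, x = 0
      · obtain ⟨n1, n2, n3, n4, bX, bY, bZ, bC, q1, q2, q3⟩ := h4 K V0 V2 V3 V4 R.a1 R.a5 R.a6
          (by
            intro tX tY tZ tC e1 e2 e3
            obtain ⟨c, c0, c1, c2, c3, c4⟩ := hS tX 0 tY tZ tC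
              (by intro x; simp [ha0]) e1 (by intro x; simp [ha2]) (by intro x; simp [ha3])
              (by intro x; simp [ha4]) e2 e3
            exact ⟨c, c0, c2, c3, c4⟩)
        exact ⟨n1, _, n2, n3, n4, bX, Module.finBasis K V1, bY, bZ, bC, ZO_zero _ _ _ ha0, q1,
          ZO_zero _ _ _ ha2, ZO_zero _ _ _ ha3, ZO_zero _ _ _ ha4, q2, q3⟩
      · push Not at hV1
        obtain ⟨v, hv⟩ := hV1
        obtain ⟨c, c0, c1, c2, c3, c4⟩ := hS 0 LinearMap.id 0 0 0
          (by intro x; simp) (by intro x; simp) (by intro x; simp [ha2])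
          (by intro x; simp [ha3]) (by intro x; simp) (by intro x; simp) (by intro x; simp)
        have hc : c ≠ 0 := by
          rintro rfl
          have := c1 v
          rw [zero_smul] at this
          exact hv this
        have z4 : ∀ x : V4, x = 0 := by
          intro x
          have := c4 x
          rw [LinearMap.zero_apply] at this
          exact (smul_eq_zero.1 this.symm).resolve_left hc
        have q1 : R.a1 = 0 := LinearMap.ext fun x => z4 _
        have q5 : R.a5 = 0 := LinearMap.ext fun x => z4 _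
        have q6 : R.a6 = 0 := LinearMap.ext fun x => z4 _
        exact ⟨_, _, _, _, _, Module.finBasis K V0, Module.finBasis K V1, Module.finBasis K V2,
          Module.finBasis K V3, Module.finBasis K V4, ZO_zero _ _ _ ha0, ZO_zero _ _ _ q1,
          ZO_zero _ _ _ ha2, ZO_zero _ _ _ ha3, ZO_zero _ _ _ ha4, ZO_zero _ _ _ q5,
          ZO_zero _ _ _ q6⟩
    · -- `V0 → V4 ← V2 → V3 ← V1`
      obtain ⟨n1, n2, n3, n4, n5, bS, bE, bC, bF, bT, q1, q2, q3, q4⟩ :=
        h2 K V0 V4 V2 V3 V1 R.a1 R.a5 R.a4 R.a3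
          (by
            intro tS tE tC tF tT e1 e2 e3 e4
            obtain ⟨c, c0, c1, c2, c3, c4⟩ := hS tS tT tC tF tE
              (by intro x; simp [ha0]) e1 (by intro x; simp [ha2]) e4 e3 e2
              (by intro x; simp [ha6])
            exact ⟨c, c0, c4, c2, c3, c1⟩)
      exact ⟨n1, n5, n3, n4, n2, bS, bT, bC, bF, bE, ZO_zero _ _ _ ha0, q1, ZO_zero _ _ _ ha2,
        q4, q3, q2, ZO_zero _ _ _ ha6⟩
  · rcases hc3 with ⟨ha3, -⟩ | ha6
    · -- `V3 → V4 ← V0 → V2 ← V1`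
      obtain ⟨n1, n2, n3, n4, n5, bS, bE, bC, bF, bT, q1, q2, q3, q4⟩ :=
        h2 K V3 V4 V0 V2 V1 R.a6 R.a1 R.a0 R.a2
          (by
            intro tS tE tC tF tT e1 e2 e3 e4
            obtain ⟨c, c0, c1, c2, c3, c4⟩ := hS tC tT tF tS tE
              e3 e2 e4 (by intro x; simp [ha3]) (by intro x; simp [ha4])
              (by intro x; simp [ha5]) e1
            exact ⟨c, c3, c4, c0, c2, c1⟩)
      exact ⟨n3, n5, n4, n1, n2, bC, bT, bF, bS, bE, q3, q2, q4, ZO_zero _ _ _ ha3,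
        ZO_zero _ _ _ ha4, ZO_zero _ _ _ ha5, q1⟩
    · -- `V4 ← V0 → V2 ← V1 → V3`
      obtain ⟨n1, n2, n3, n4, n5, bE, bS, bC, bT, bF, q1, q2, q3, q4⟩ :=
        h1 K V4 V0 V2 V1 V3 R.a1 R.a0 R.a2 R.a3
          (by
            intro tE tS tC tT tF e1 e2 e3 e4
            obtain ⟨c, c0, c1, c2, c3, c4⟩ := hS tS tT tC tF tE
              e2 e1 e3 e4 (by intro x; simp [ha4])
              (by intro x; simp [ha5]) (by intro x; simp [ha6])
            exact ⟨c, c4, c0, c2, c1, c3⟩)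
      exact ⟨n2, n4, n3, n5, n1, bS, bT, bC, bF, bE, q2, q1, q3, q4,
        ZO_zero _ _ _ ha4, ZO_zero _ _ _ ha5, ZO_zero _ _ _ ha6⟩

end WS862
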